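import Pool.Agent.H7.HD.All
import Pool.Agent.H7.HD.Targets9
import Pool.Agent.H3.HD.Iter

/-!
# The theorem of Solovay on cardinal arithmetic above a strongly compact cardinal

The ultrafilters `WN` are used.
-/

open Ordinal Cardinal Order Set
open scoped ZFSet

universe u

namespace Pool.Agent.H54.WM.SO

open _root_.HD
open Pool.Agent.H3.HD (exists_bound)

/-- functions on `ℕ` into a cardinal of uncountable cofinality -/
theorem pow_of_cof {μ : Cardinal.{u}} (h0 : ℵ₀ ≤ μ) (hcof : ℵ₀ < μ.ord.cof)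
    (h : ∀ ν < μ, ν ^ ℵ₀ ≤ μ) : μ ^ ℵ₀ ≤ μ := by
  let T : Type u := μ.ord.ToType
  have hT : #T = μ := by
    rw [Cardinal.mk_toType, Cardinal.card_ord]
  have h1 : μ ^ ℵ₀ = #(ULift.{u} ℕ → T) := by
    rw [← Cardinal.power_def, hT]
    simp
  rw [h1]
  -- the functions into an initial segment
  have h2 : #(ULift.{u} ℕ → T) ≤ #(Σ b : T, (ULift.{u} ℕ → {x : T // x < b})) := by
    refine Cardinal.mk_le_of_surjective (f := fun p n => (p.2 n).1) ?_
    intro f
    obtain ⟨s, hs, hs'⟩ := exists_bound (ρ := μ.ord) (τ := ω) (by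
        rw [Ordinal.card_omega0]
        exact hcof)
      (fun i => if hi : i < ω then ((ToType.mk (o := μ.ord)).symm
        (f ⟨(Ordinal.lt_omega0.1 hi).choose⟩)).1 else 0) (by
        intro i hi
        simp only [dif_pos hi]
        exact ((ToType.mk (o := μ.ord)).symm _).2)
    have hlim : IsSuccLimit μ.ord := Cardinal.isSuccLimit_ord h0
    refine ⟨⟨ToType.mk ⟨succ s, hlim.succ_lt hs⟩, fun n => ⟨f n, ?_⟩⟩, rfl⟩
    have h3 := hs' n.down (Ordinal.natCast_lt_omega0 _)
    simp only [dif_pos (Ordinal.natCast_lt_omega0 n.down)] at h3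
    have h4 : (Ordinal.lt_omega0.1 (Ordinal.natCast_lt_omega0 n.down)).choose = n.down := by
      have h5 := (Ordinal.lt_omega0.1 (Ordinal.natCast_lt_omega0.{u} n.down)).choose_spec
      exact_mod_cast h5.symm
    rw [h4] at h3
    have h6 : (ToType.mk (o := μ.ord)).symm (f n) < ⟨succ s, hlim.succ_lt hs⟩ := by
      rw [← Subtype.coe_lt_coe]
      exact lt_succ_of_le h3
    exact (OrderIso.symm_apply_lt _).1 h6
  refine h2.trans ?_
  rw [Cardinal.mk_sigma]
  refine (Cardinal.sum_le_sum _ (fun _ => μ) fun b => ?_).trans ?_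
  · have h3 : #{x : T // x < b} < μ := by
      have h4 : #(Iio b) < #T := by
        have := Cardinal.mk_Iio_toType_ord_lt (c := μ) b
        rwa [hT]
      rw [hT] at h4
      exact h4
    have h5 : #(ULift.{u} ℕ → {x : T // x < b}) = #{x : T // x < b} ^ ℵ₀ := by
      rw [← Cardinal.power_def]
      simp
    rw [h5]
    exact h _ h3
  · rw [Cardinal.sum_const', hT]
    exact (Cardinal.mul_eq_self h0).le

theorem sl_pow {D : Cardinal.{u}} (hD : D.IsRegular) (hS : D.IsStrongLimit) (h0 : ℵ₀ < D) :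
    D ^ ℵ₀ ≤ D := by
  refine pow_of_cof h0.le (by rw [hD.cof_ord]; exact h0) fun ν hν => ?_
  have h1 : max ν ℵ₀ < D := max_lt hν h0
  refine ((Cardinal.power_le_power_right (le_max_left ν ℵ₀)).trans ?_).trans
    (hS.two_power_lt h1).le
  exact (Cardinal.power_le_power_left (by
    have := (Cardinal.aleph0_pos.trans_le (le_max_right ν ℵ₀)).ne'
    exact this) (le_max_right ν ℵ₀)).trans (Cardinal.power_self_eq (le_max_right ν ℵ₀)).le

/-- the theorem of Solovay -/
theorem solovay {D : Cardinal.{u}} (hD : D.IsRegular) (hS : D.IsStrongLimit) (h0 : ℵ₀ < D)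
    (hW : GoodW D) {lam : Cardinal.{u}} (hl : lam.IsRegular) (hDl : D ≤ lam) :
    lam ^ ℵ₀ ≤ lam := by
  classical
  have hcof : lam.ord.cof = lam := hl.cof_ord
  have hl0 : ℵ₀ < lam := h0.trans_le hDl
  have hlim : IsSuccLimit lam.ord := Cardinal.isSuccLimit_ord hl0.le
  obtain ⟨W, hWN⟩ := hW lam.ord (by rw [hcof]; exact hDl)
  -- small cofinal sets
  have hB : ∀ ν : Ordinal.{u}, ∃ e : Ordinal.{u} → Ordinal.{u}, IsSuccLimit ν →
      ∀ y < ν, ∃ a < ν.cof.ord, y < e a ∧ e a < ν := by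
    intro ν
    by_cases hν : IsSuccLimit ν
    · obtain ⟨B, hB1, hB2, e, he⟩ := All.vg ν hν
      refine ⟨e, fun _ y hy => ?_⟩
      obtain ⟨b, hb1, hb2, hb3⟩ := hB1.unb y hy
      obtain ⟨a, ha, hab⟩ := he b hb3
      exact ⟨a, ha, by rw [hab]; exact hb2, by rw [hab]; exact hb1⟩
    · exact ⟨fun _ => 0, fun h => absurd h hν⟩
  choose e he using hB
  -- the ultrafilter bounds the first elements
  have hf : ∀ η : Ordinal.{u}, ∃ η' : Ordinal.{u}, η < lam.ord → η' < lam.ord ∧
      {ν | IsSuccLimit ν ∧ ∃ a < ν.cof.ord, η < e ν a ∧ e ν a ≤ η'} ∈ W := by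
    intro η
    by_cases hη : η < lam.ord
    · let g : Ordinal.{u} → Ordinal.{u} := fun ν =>
        if h : IsSuccLimit ν ∧ η < ν then e ν (he ν h.1 η h.2).choose else 0
      have hg : ∀ ν (h : IsSuccLimit ν ∧ η < ν), ∃ a < ν.cof.ord, η < e ν a ∧ e ν a < ν ∧
          g ν = e ν a := by
        intro ν h
        have h1 := (he ν h.1 η h.2).choose_spec
        refine ⟨_, h1.1, h1.2.1, h1.2.2, ?_⟩
        show (if h : IsSuccLimit ν ∧ η < ν then e ν (he ν h.1 η h.2).choose else 0) = _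
        rw [dif_pos h]
      obtain ⟨ξ, hξ, hξ'⟩ := hWN.wn g (by
        filter_upwards [hWN.lim, hWN.gt η hη] with ν h1 h2
        obtain ⟨a, -, -, h3, h4⟩ := hg ν ⟨h1, h2⟩
        show g ν < ν
        rw [h4]
        exact h3)
      refine ⟨ξ, fun _ => ⟨hξ, ?_⟩⟩
      filter_upwards [hWN.lim, hWN.gt η hη, hξ'] with ν h1 h2 h3
      obtain ⟨a, h4, h5, h6, h7⟩ := hg ν ⟨h1, h2⟩
      refine ⟨h1, a, h4, h5, ?_⟩
      rw [← h7]
      exact h3
    · exact ⟨0, fun h => absurd h hη⟩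
  choose f hf using hf
  -- the points of a club set
  have hC : Clb lam.ord {x | 0 < x ∧ ∀ y < x, f y < x} :=
    All.ve lam hl hl0 f fun x hx => (hf x hx).1
  obtain ⟨-, vh2, -, vh4⟩ := All.vh ({x | 0 < x ∧ ∀ y < x, f y < x} ∩ Iio lam.ord)
  have hz : ∀ a < lam.ord, ∃ z, nth ({x | 0 < x ∧ ∀ y < x, f y < x} ∩ Iio lam.ord) a z := by
    rcases vh4 lam.ord with ⟨τ, hτ, g, hg⟩ | h
    · exfalso
      obtain ⟨s, hs, hs'⟩ := exists_bound (ρ := lam.ord) (τ := τ) (by
          rw [hcof]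
          exact Cardinal.lt_ord.1 hτ) (fun i => if g i < lam.ord then g i else 0) (by
        intro i hi
        split_ifs with h
        · exact h
        · exact hlim.bot_lt)
      obtain ⟨b, hb1, hb2, hb3⟩ := hC.unb s hs
      obtain ⟨a, ha, hab⟩ := hg b ⟨hb3, hb1⟩
      have h1 := hs' a ha
      rw [hab, if_pos hb1] at h1
      exact absurd hb2 (not_lt.2 h1)
    · exact h
  choose! z hz using hz
  have hzC : ∀ a < lam.ord, (0 < z a ∧ ∀ y < z a, f y < z a) ∧ z a < lam.ord :=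
    fun a ha => (hz a ha).1
  have hzm : ∀ a < lam.ord, ∀ b < lam.ord, a < b → z a < z b := fun a ha b hb hab =>
    (vh2 a b _ _ (hz a ha) (hz b hb)).1 hab
  -- the code of a function
  let T : Type u := lam.ord.ToType
  let S : Type u := D.ord.ToType
  have hT : #T = lam := by rw [Cardinal.mk_toType, Cardinal.card_ord]
  have hSc : #S = D := by rw [Cardinal.mk_toType, Cardinal.card_ord]
  let t : T → Ordinal.{u} := fun x => ((ToType.mk (o := lam.ord)).symm x).1
  let s : S → Ordinal.{u} := fun x => ((ToType.mk (o := D.ord)).symm x).1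
  have ht : ∀ x, t x < lam.ord := fun x => ((ToType.mk (o := lam.ord)).symm x).2
  have ht' : ∀ b < lam.ord, ∃ x, t x = b := by
    intro b hb
    refine ⟨ToType.mk ⟨b, hb⟩, ?_⟩
    show ((ToType.mk (o := lam.ord)).symm (ToType.mk ⟨b, hb⟩)).1 = b
    rw [OrderIso.symm_apply_apply]
  have hs' : ∀ b < D.ord, ∃ x, s x = b := by
    intro b hb
    refine ⟨ToType.mk ⟨b, hb⟩, ?_⟩
    show ((ToType.mk (o := D.ord)).symm (ToType.mk ⟨b, hb⟩)).1 = b
    rw [OrderIso.symm_apply_apply]
  let d : T → S → T := fun ν i =>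
    if h : ∃ x : T, z (t x) < e (t ν) (s i) ∧ e (t ν) (s i) ≤ f (z (t x)) then h.choose else ν
  have hd : ∀ (ν : T) (i : S) (x : T), z (t x) < e (t ν) (s i) →
      e (t ν) (s i) ≤ f (z (t x)) → d ν i = x := by
    intro ν i x h1 h2
    have h : ∃ x : T, z (t x) < e (t ν) (s i) ∧ e (t ν) (s i) ≤ f (z (t x)) := ⟨x, h1, h2⟩
    have h3 : d ν i = h.choose := dif_pos h
    rw [h3]
    obtain ⟨h4, h5⟩ := h.choose_spec
    have key : ∀ x y : T, z (t x) < e (t ν) (s i) → e (t ν) (s i) ≤ f (z (t y)) →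
        ¬ t y < t x := by
      intro x y h6 h7 h8
      have h9 := hzm _ (ht y) _ (ht x) h8
      have h10 := (hzC _ (ht x)).1.2 _ h9
      exact absurd (h6.trans_le h7) (not_lt.2 h10.le)
    have h6 : t h.choose = t x := le_antisymm (not_lt.1 (key _ _ h4 h2)) (not_lt.1 (key _ _ h1 h5))
    have h7 : (ToType.mk (o := lam.ord)).symm h.choose = (ToType.mk (o := lam.ord)).symm x :=
      Subtype.ext h6
    exact (ToType.mk (o := lam.ord)).symm.injective h7
  have hsurj : Function.Surjective (fun p : T × (ULift.{u} ℕ → S) =>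
      (fun n => d p.1 (p.2 n) : ULift.{u} ℕ → T)) := by
    intro h
    have h1 : {ν | ∀ i < (ω : Ordinal.{u}), ν ∈ (fun i : Ordinal.{u} =>
        if hi : i < ω then {ν | IsSuccLimit ν ∧ ∃ a < ν.cof.ord,
          z (t (h ⟨(Ordinal.lt_omega0.1 hi).choose⟩)) < e ν a ∧
          e ν a ≤ f (z (t (h ⟨(Ordinal.lt_omega0.1 hi).choose⟩)))} else univ) i} ∈ W := by
      refine hWN.cmp ω (by rw [Cardinal.lt_ord, Ordinal.card_omega0]; exact h0) _ fun i hi => ?_
      simp only [dif_pos hi]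
      exact (hf _ (hzC _ (ht _)).2).2
    obtain ⟨ν, h2, h3, h4⟩ := W.nonempty_of_mem (Filter.inter_mem h1
      (Filter.inter_mem hWN.lt hWN.cf))
    obtain ⟨x, rfl⟩ := ht' ν h3
    have h5 : ∀ n : ULift.{u} ℕ, ∃ i : S, d x i = h n := by
      intro n
      have h6 := h2 n.down (Ordinal.natCast_lt_omega0 _)
      simp only [dif_pos (Ordinal.natCast_lt_omega0 n.down)] at h6
      have h7 : (Ordinal.lt_omega0.1 (Ordinal.natCast_lt_omega0.{u} n.down)).choose = n.down := by
        have h8 := (Ordinal.lt_omega0.1 (Ordinal.natCast_lt_omega0.{u} n.down)).choose_spec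
        exact_mod_cast h8.symm
      rw [h7] at h6
      obtain ⟨-, a, ha, h9, h10⟩ := h6
      obtain ⟨i, rfl⟩ := hs' a (ha.trans (Cardinal.ord_lt_ord.2 h4))
      exact ⟨i, hd x i _ h9 h10⟩
    choose i hi using h5
    exact ⟨(x, i), funext hi⟩
  have h1 := Cardinal.mk_le_of_surjective hsurj
  have h2 : #(ULift.{u} ℕ → T) = lam ^ ℵ₀ := by
    rw [← Cardinal.power_def, hT]
    simp
  have h3 : #(ULift.{u} ℕ → S) = D ^ ℵ₀ := by
    rw [← Cardinal.power_def, hSc]
    simp
  rw [h2, Cardinal.mk_prod, hT, h3, Cardinal.lift_id, Cardinal.lift_id] at h1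
  refine h1.trans ((mul_le_mul' le_rfl ((sl_pow hD hS h0).trans hDl)).trans ?_)
  exact (Cardinal.mul_eq_self hl0.le).le

/-- the powers of the cardinals less than a regular cardinal -/
theorem X {D : Cardinal.{u}} (hD : D.IsRegular) (hS : D.IsStrongLimit) (h0 : ℵ₀ < D)
    (hW : GoodW D) {K : Cardinal.{u}} (hK : K.IsRegular) (hDK : D < K)
    (hKs : ∀ μ : Cardinal.{u}, K = succ μ → μ.ord.cof ≠ ℵ₀) : ∀ τ < K, τ ^ ℵ₀ < K := by
  intro τ hτ
  have h1 : max τ D < K := max_lt hτ hDK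
  have h2 : ∀ ν : Cardinal.{u}, ν ^ ℵ₀ ≤ succ (max ν D) := fun ν =>
    (Cardinal.power_le_power_right ((le_max_left ν D).trans (le_succ _))).trans
      (solovay hD hS h0 hW (Cardinal.isRegular_succ (h0.le.trans (le_max_right _ _)))
        ((le_max_right _ _).trans (le_succ _)))
  rcases (Order.succ_le_of_lt h1).lt_or_eq with h3 | h3
  · exact (h2 τ).trans_lt h3
  · refine ((Cardinal.power_le_power_right (le_max_left τ D)).trans ?_).trans_lt h1
    have h4 := hKs _ h3.symm
    have h5 : ℵ₀ ≤ max τ D := h0.le.trans (le_max_right _ _)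
    by_cases hr : (max τ D).IsRegular
    · exact solovay hD hS h0 hW hr (le_max_right _ _)
    · refine pow_of_cof h5 (lt_of_le_of_ne ?_ h4.symm) fun ν hν => ?_
      · exact Ordinal.aleph0_le_cof.2 (Cardinal.isSuccLimit_ord h5)
      · have h6 : D < max τ D := by
          refine lt_of_le_of_ne (le_max_right _ _) fun he => hr ?_
          rw [← he]
          exact hD
        exact (h2 ν).trans (Order.succ_le_of_lt (max_lt hν h6))

end Pool.Agent.H54.WM.SO
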