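import Pool.Agent.H54.WM.Targets

/-!
# ELE: the embedding is elementary
-/

open Ordinal Cardinal Order Set
open scoped ZFSet

universe u

namespace Pool.Agent.H54.WM.ELE

open _root_.HD Pool.Agent.H54.WM

theorem pr_replicate (k n : ℕ) : pr n (tup (List.replicate k (∅ : ZFSet.{u}))) = ∅ := by
  rw [pr_tup]
  unfold sv
  rw [List.getD_eq_getElem?_getD, List.getElem?_replicate]
  split_ifs <;> rfl

theorem X (hLOS : T_LOS.{u}) (hTR : T_TR.{u}) (hST : T_ST.{u}) : T_ELE.{u} := by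
  intro ξ κ j h π hπ φ v hv
  have h1 := hST ξ κ j π hπ φ (fun n => ct ξ h.lκ (v n) (hv n))
  have hc : tup (List.replicate (bd φ) (∅ : ZFSet.{u})) ∈ HV κ := tup_mem_HV h.lκ (by
    intro x hx
    rw [List.eq_of_mem_replicate hx]
    exact empty_mem_HV h.lκ)
  have h2 := hLOS ξ κ j h φ (fun n => ct ξ h.lκ (v n) (hv n)) (bd φ) _ le_rfl hc
    (fun n _ => pr_replicate _ n)
  refine Iff.trans ?_ (h2.symm.trans h1)
  have hval : ∀ w ∈ HV ξ, (fun n => ap (cst ξ (v n)) (pr n w)) = v := by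
    intro w hw
    funext n
    exact ap_cst (pr_mem_HV h.lξ n hw)
  have hTS : TS ξ φ (fun n => (ct ξ h.lκ (v n) (hv n)).f) = ZFSet.sep (fun _ => Sat HOD φ v)
      (HV ξ) := by
    ext w
    rw [mem_TS, ZFSet.mem_sep]
    refine and_congr_right fun hw => ?_
    show Sat HOD φ (fun n => ap (cst ξ (v n)) (pr n w)) ↔ _
    rw [hval w hw]
  rw [hTS]
  obtain ⟨-, hV, h0⟩ := hTR ξ κ j h
  by_cases hs : Sat HOD φ v
  · have e : ZFSet.sep (fun _ => Sat HOD φ v) (HV ξ) = HV ξ := by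
      ext w
      rw [ZFSet.mem_sep]
      exact ⟨fun h => h.1, fun h => ⟨h, hs⟩⟩
    rw [e, hV]
    exact iff_of_true hs hc
  · have e : ZFSet.sep (fun _ => Sat HOD φ v) (HV ξ) = ∅ := by
      rw [ZFSet.eq_empty]
      intro w hw
      exact hs (ZFSet.mem_sep.1 hw).2
    rw [e, h0]
    exact iff_of_false hs (ZFSet.notMem_empty _)

end Pool.Agent.H54.WM.ELE
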