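import Pool.Agent.H54.WM.Targets

/-!
# IDC: the elements of `V_ κ` and the images of subsets of `V_ ξ`
-/

open Ordinal Cardinal Order Set
open scoped ZFSet

universe u

namespace Pool.Agent.H54.WM.IDC

open _root_.HD Pool.Agent.H54.WM

theorem X (hSD : T_SD.{u}) : T_IDC.{u} := by
  intro ξ κ j h π hπ
  obtain ⟨s1, s2, s3, s4⟩ := hSD ξ κ j h
  have key : ∀ c : ZFSet.{u}, ∀ hc : c ∈ HV κ, π (idt ξ c hc) = c := by
    intro c
    induction c using ZFSet.inductionOn with
    | _ c ih =>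
      intro hc
      ext x
      constructor
      · intro hx
        obtain ⟨s, rfl⟩ := hπ.tra _ x hx
        obtain ⟨d, hd, hsd⟩ := s2 s c hc ((hπ.mem _ _).2 hx)
        have h1 := (hπ.eq _ _).1 hsd
        rw [h1] at hx ⊢
        have hdc := (s1 d c hd hc).1 ((hπ.mem _ _).2 hx)
        rw [ih d hdc hd]
        exact hdc
      · intro hx
        have hd := HV_tra hc hx
        have h1 := (hπ.mem _ _).1 ((s1 x c hd hc).2 hx)
        rwa [ih x hx hd] at h1
  refine ⟨key, fun x hx => ?_⟩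
  ext z
  constructor
  · intro hz
    obtain ⟨s, rfl⟩ := hπ.tra _ z hz
    obtain ⟨c, hc, hsc⟩ := s4 x hx s ((hπ.mem _ _).2 hz)
    have h1 := (hπ.eq _ _).1 hsc
    rw [h1] at hz ⊢
    have h2 := (s3 x hx c hc).1 ((hπ.mem _ _).2 hz)
    rw [key c hc]
    exact h2
  · intro hz
    have hzH : z ∈ HV κ := mem_HV_of_VH (h.emb.map x hx) hz
    have h1 := (hπ.mem _ _).1 ((s3 x hx z hzH).2 hz)
    rwa [key z hzH] at h1

end Pool.Agent.H54.WM.IDC
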