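import Pool.Agent.H54.WM.Targets

/-!
# LOS: the theorem of Los
-/

open Ordinal Cardinal Order Set
open scoped ZFSet

universe u

namespace Pool.Agent.H54.WM.LOS

open _root_.HD Pool.Agent.H54.WM

/-- the entries `i` and `l` of `w` form a sequence in `Y` -/
def T2 (i l : ℕ) (w Y : ZFSet.{u}) : Prop :=
  ∃ p ∈ Y, ∃ x q, p = ZFSet.pair x q ∧ x = pr i w ∧ ∃ y z, q = ZFSet.pair y z ∧ y = pr l w ∧ z = ∅

theorem T2_iff {i l : ℕ} {w Y : ZFSet.{u}} : T2 i l w Y ↔ tup [pr i w, pr l w] ∈ Y := by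
  constructor
  · rintro ⟨p, hp, x, q, rfl, rfl, y, z, rfl, rfl, rfl⟩
    exact hp
  · intro h
    exact ⟨_, h, _, _, rfl, rfl, _, _, rfl, rfl, rfl⟩

theorem d0_T2 (i l a b : ℕ) : D0.{u} fun v => T2 i l (v a) (v b) := by
  refine D0.exMem (R := fun p v => ∃ x q, p = ZFSet.pair x q ∧ x = pr i (v a) ∧
    ∃ y z, q = ZFSet.pair y z ∧ y = pr l (v a) ∧ z = ∅) b ?_
  refine D0.exPair (R := fun x q v => x = pr i (v (a + 1)) ∧
    ∃ y z, q = ZFSet.pair y z ∧ y = pr l (v (a + 1)) ∧ z = ∅) 0 ?_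
  refine (D0.pr i 0 (a + 3)).and ?_
  refine D0.exPair (R := fun y z v => y = pr l (v (a + 3)) ∧ z = ∅) 1 ?_
  exact (D0.pr l 0 (a + 5)).and (D0.empty 1)

theorem d0_pm (a b c : ℕ) : D0.{u} fun v => ZFSet.pair (v a) (v b) ∈ v c := by
  refine (D0.exMem (R := fun p v => p = ZFSet.pair (v a) (v b)) c
    (D0.pair 0 (a + 1) (b + 1))).congr fun v => ?_
  simp

section

variable {ξ κ : Ordinal.{u}} {j : ZFSet.{u} → ZFSet.{u}}

/-- transfer with two parameters -/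
theorem tr2 (hTR : T_TR.{u}) (hB : Bas ξ κ j)
    {R : ZFSet.{u} → ZFSet.{u} → ZFSet.{u} → ZFSet.{u} → Prop}
    (hR : D0 fun v => R (v 0) (v 1) (v 2) (v 3)) {X Y : ZFSet.{u}} (hX : VH ξ X) (hY : VH ξ Y)
    (h : ∀ w ∈ HV ξ, ∀ w' ∈ HV ξ, R w w' X Y) :
    ∀ w ∈ HV κ, ∀ w' ∈ HV κ, R w w' (j X) (j Y) := by
  have h1 := ((hTR ξ κ j hB).1 (fun w w' v => R w w' (v 0) (v 1)) hR
    (fun n => if n = 0 then X else Y) (by
      intro n
      split_ifs
      exacts [hX, hY])).1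
  simpa using h1 (by simpa using h)

theorem cons_f (s : Tm κ) (t : ℕ → Tm κ) :
    (fun n => (tcons s t n).f) = cons s.f fun n => (t n).f := by
  funext n
  cases n <;> rfl

theorem ap_cons (g : ZFSet.{u}) (f : ℕ → ZFSet.{u}) (u w : ZFSet.{u}) :
    (fun n => ap (cons g f n) (pr n (ZFSet.pair u w))) =
      cons (ap g u) fun n => ap (f n) (pr n w) := by
  funext n
  rcases n with _ | n
  · show ap g (pr 0 (ZFSet.pair u w)) = ap g u
    rw [pr_zero_pair]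
  · show ap (f n) (pr (n + 1) (ZFSet.pair u w)) = ap (f n) (pr n w)
    rw [pr_succ_pair]

end

theorem X (hTR : T_TR.{u}) (hTSH : T_TSH.{u}) (hCHC : T_CHC.{u}) : T_LOS.{u} := by
  intro ξ κ j hB φ
  have hf : ∀ (t : ℕ → Tm κ) (n : ℕ), HOD (t n).f := fun t n => (t n).hf
  have vts : ∀ (φ : Fml) (f : ℕ → ZFSet.{u}), (∀ n, HOD (f n)) → VH ξ (TS ξ φ f) :=
    fun φ f hf => ⟨hTSH ξ φ f hf, fun w hw => HV_sub ξ (mem_TS.1 hw).1⟩
  have hsv : ∀ s t : Tm κ, ∀ n, HOD (sv [s.f, t.f] n) := by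
    intro s t n
    rcases n with _ | _ | n
    · exact s.hf
    · exact t.hf
    · exact hod_empty
  induction φ with
  | mem i l =>
    intro t k c hk hc hpr
    have h1 := tr2 hTR hB (R := fun w _ X Y => w ∈ X ↔ T2 i l w Y)
      ((D0.mem 0 2).iff (d0_T2 i l 0 3)) (vts (.mem i l) _ (hf t))
      (vts (.mem 0 1) _ (hsv (t i) (t l))) (by
        intro w hw w' hw'
        rw [T2_iff, mem_TS, mem_TS]
        have h2 : tup [pr i w, pr l w] ∈ HV ξ := tup_mem_HV hB.lξ (by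
          intro x hx
          simp only [List.mem_cons, List.not_mem_nil, or_false] at hx
          rcases hx with rfl | rfl
          exacts [pr_mem_HV hB.lξ i hw, pr_mem_HV hB.lξ l hw])
        show (w ∈ HV ξ ∧ ap (t i).f (pr i w) ∈ ap (t l).f (pr l w)) ↔
          (tup [pr i w, pr l w] ∈ HV ξ ∧
            ap (t i).f (pr 0 (tup [pr i w, pr l w])) ∈ ap (t l).f (pr 1 (tup [pr i w, pr l w])))
        rw [pr_tup, pr_tup]
        exact ⟨fun h => ⟨h2, h.2⟩, fun h => ⟨hw, h.2⟩⟩) c hc c hc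
    rw [T2_iff] at h1
    have hi : i < k := lt_of_lt_of_le (by simp [bd]) hk
    have hl : l < k := lt_of_lt_of_le (by simp [bd]) hk
    rw [hpr i hi, hpr l hl] at h1
    exact h1.symm
  | eq i l =>
    intro t k c hk hc hpr
    have h1 := tr2 hTR hB (R := fun w _ X Y => w ∈ X ↔ T2 i l w Y)
      ((D0.mem 0 2).iff (d0_T2 i l 0 3)) (vts (.eq i l) _ (hf t))
      (vts (.eq 0 1) _ (hsv (t i) (t l))) (by
        intro w hw w' hw'
        rw [T2_iff, mem_TS, mem_TS]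
        have h2 : tup [pr i w, pr l w] ∈ HV ξ := tup_mem_HV hB.lξ (by
          intro x hx
          simp only [List.mem_cons, List.not_mem_nil, or_false] at hx
          rcases hx with rfl | rfl
          exacts [pr_mem_HV hB.lξ i hw, pr_mem_HV hB.lξ l hw])
        show (w ∈ HV ξ ∧ ap (t i).f (pr i w) = ap (t l).f (pr l w)) ↔
          (tup [pr i w, pr l w] ∈ HV ξ ∧
            ap (t i).f (pr 0 (tup [pr i w, pr l w])) = ap (t l).f (pr 1 (tup [pr i w, pr l w])))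
        rw [pr_tup, pr_tup]
        exact ⟨fun h => ⟨h2, h.2⟩, fun h => ⟨hw, h.2⟩⟩) c hc c hc
    rw [T2_iff] at h1
    have hi : i < k := lt_of_lt_of_le (by simp [bd]) hk
    have hl : l < k := lt_of_lt_of_le (by simp [bd]) hk
    rw [hpr i hi, hpr l hl] at h1
    exact h1.symm
  | neg φ ih =>
    intro t k c hk hc hpr
    have h1 := tr2 hTR hB (R := fun w _ X Y => w ∈ X ↔ w ∉ Y)
      ((D0.mem 0 2).iff (D0.mem 0 3).not) (vts (.neg φ) _ (hf t)) (vts φ _ (hf t)) (by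
        intro w hw w' hw'
        rw [mem_TS, mem_TS]
        show (w ∈ HV ξ ∧ ¬ Sat HOD φ _) ↔ ¬ (w ∈ HV ξ ∧ Sat HOD φ _)
        tauto) c hc c hc
    rw [h1, ← ih t k c hk hc hpr]
    rfl
  | and φ ψ ih1 ih2 =>
    intro t k c hk hc hpr
    have h1 := tr2 hTR hB (R := fun w _ X Y => w ∈ X → w ∈ Y)
      ((D0.mem 0 2).imp (D0.mem 0 3)) (vts (.and φ ψ) _ (hf t)) (vts φ _ (hf t)) (by
        intro w hw w' hw' h
        rw [mem_TS] at h ⊢
        exact ⟨h.1, h.2.1⟩) c hc c hc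
    have h2 := tr2 hTR hB (R := fun w _ X Y => w ∈ X → w ∈ Y)
      ((D0.mem 0 2).imp (D0.mem 0 3)) (vts (.and φ ψ) _ (hf t)) (vts ψ _ (hf t)) (by
        intro w hw w' hw' h
        rw [mem_TS] at h ⊢
        exact ⟨h.1, h.2.2⟩) c hc c hc
    have h3 := ((hTR ξ κ j hB).1 (fun w _ v => w ∈ v 0 → w ∈ v 1 → w ∈ v 2)
      ((D0.mem 0 2).imp ((D0.mem 0 3).imp (D0.mem 0 4)))
      (sv [TS ξ φ fun n => (t n).f, TS ξ ψ fun n => (t n).f, TS ξ (.and φ ψ) fun n => (t n).f])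
      (by
        intro n
        rcases n with _ | _ | _ | n
        · exact vts φ _ (hf t)
        · exact vts ψ _ (hf t)
        · exact vts (.and φ ψ) _ (hf t)
        · exact ⟨hod_empty, fun z hz => absurd hz (ZFSet.notMem_empty z)⟩)).1 (by
        intro w hw w' hw' h1 h2
        exact mem_TS.2 ⟨hw, (mem_TS.1 h1).2, (mem_TS.1 h2).2⟩) c hc c hc
    have hk1 : bd φ ≤ k := (le_max_left _ _).trans hk
    have hk2 : bd ψ ≤ k := (le_max_right _ _).trans hk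
    show (SatT _ _ φ t ∧ SatT _ _ ψ t) ↔ _
    rw [ih1 t k c hk1 hc hpr, ih2 t k c hk2 hc hpr]
    exact ⟨fun h => h3 h.1 h.2, fun h => ⟨h1 h, h2 h⟩⟩
  | ex φ ih =>
    intro t k c hk hc hpr
    have hcf : ∀ g, HOD g → ∀ n, HOD (cons g (fun n => (t n).f) n) := by
      intro g hg n
      rcases n with _ | n
      · exact hg
      · exact (t n).hf
    have hpc : ∀ (s : Tm κ), ∀ n < k + 1, pr n (ZFSet.pair s.b c) = (tcons s t n).b := by
      intro s n hn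
      rcases n with _ | n
      · exact pr_zero_pair _ _
      · rw [pr_succ_pair]
        exact hpr n (Nat.lt_of_succ_lt_succ hn)
    constructor
    · rintro ⟨s, hs⟩
      have h1 := (ih (tcons s t) (k + 1) (ZFSet.pair s.b c) (Nat.le_succ_of_le hk)
        (pair_mem_HV hB.lκ s.hb hc) (hpc s)).1 hs
      rw [cons_f] at h1
      refine tr2 hTR hB (R := fun u w X Y => ZFSet.pair u w ∈ X → w ∈ Y)
        ((d0_pm 0 1 2).imp (D0.mem 1 3)) (vts φ _ (hcf s.f s.hf)) (vts (.ex φ) _ (hf t)) (by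
          intro u hu w hw h
          rw [mem_TS, ap_cons] at h
          exact mem_TS.2 ⟨hw, ap s.f u, hod_ap s.hf (mem_HV.1 hu).2, h.2⟩) s.b s.hb c hc h1
    · intro h
      obtain ⟨g, hg, hg'⟩ := hCHC ξ φ (fun n => (t n).f) (hf t)
      have h1 := tr2 hTR hB (R := fun w _ X Y => w ∈ X → ZFSet.pair w w ∈ Y)
        ((D0.mem 0 2).imp (d0_pm 0 0 3)) (vts (.ex φ) _ (hf t)) (vts φ _ (hcf g hg)) (by
          intro w hw w' hw' h
          rw [mem_TS] at h
          rw [mem_TS, ap_cons]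
          exact ⟨pair_mem_HV hB.lξ hw hw, (hg' w hw h.2).2⟩) c hc c hc h
      refine ⟨⟨c, g, hc, hg⟩, ?_⟩
      refine (ih (tcons ⟨c, g, hc, hg⟩ t) (k + 1) (ZFSet.pair c c) (Nat.le_succ_of_le hk)
        (pair_mem_HV hB.lκ hc hc) (hpc ⟨c, g, hc, hg⟩)).2 ?_
      rw [cons_f]
      exact h1

end Pool.Agent.H54.WM.LOS
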