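import Pool.Agent.H54.WM.Targets

/-!
# PI: the collapse of the structure of the terms
-/

open Ordinal Cardinal Order Set
open scoped ZFSet

universe u

namespace Pool.Agent.H54.WM.PI

open _root_.HD Pool.Agent.H54.WM

/-- what is valid in HOD is true for the terms -/
theorem valid (hLOS : T_LOS.{u}) (hTR : T_TR.{u}) {ξ κ : Ordinal.{u}}
    {j : ZFSet.{u} → ZFSet.{u}} (h : Bas ξ κ j) {φ : Fml}
    (hφ : ∀ v : ℕ → ZFSet.{u}, (∀ n, HOD (v n)) → Sat HOD φ v) (t : ℕ → Tm κ) :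
    SatT (ME ξ j) (MQ ξ j) φ t := by
  have hc : tup ((List.range (bd φ)).map fun n => (t n).b) ∈ HV κ := tup_mem_HV h.lκ (by
    intro x hx
    obtain ⟨n, -, rfl⟩ := List.mem_map.1 hx
    exact (t n).hb)
  refine (hLOS ξ κ j h φ t (bd φ) _ le_rfl hc ?_).2 ?_
  · intro n hn
    rw [pr_tup]
    unfold sv
    rw [List.getD_eq_getElem _ _ (by simpa using hn)]
    simp
  · have e : TS ξ φ (fun n => (t n).f) = HV ξ := by
      ext w
      rw [mem_TS]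
      exact ⟨fun h => h.1, fun hw => ⟨hw, hφ _ fun n =>
        hod_ap (t n).hf (mem_HV.1 (pr_mem_HV h.lξ n hw)).2⟩⟩
    rw [e, (hTR ξ κ j h).2.1]
    exact hc

/-- a sequence which begins with four given terms -/
def q4 {α : Type (u + 1)} (a b c d : α) : ℕ → α
  | 0 => a
  | 1 => b
  | 2 => c
  | _ => d

theorem X (hLOS : T_LOS.{u}) (hTR : T_TR.{u}) (hWFT : T_WFT.{u}) (hCOL : T_COL.{u})
    (hSL : T_SL.{u}) : T_PI.{u} := by
  intro ξ κ j h hCC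
  have hval : ∀ φ : Fml, (∀ v : ℕ → ZFSet.{u}, (∀ n, HOD (v n)) → Sat HOD φ v) →
      ∀ t : ℕ → Tm κ, SatT (ME ξ j) (MQ ξ j) φ t := fun φ hφ t => valid hLOS hTR h hφ t
  have hrefl : ∀ s : Tm κ, MQ ξ j s s := fun s =>
    hval (.eq 0 0) (fun v _ => rfl) (q4 s s s s)
  have hsymm : ∀ s t : Tm κ, MQ ξ j s t → MQ ξ j t s := by
    intro s t hst
    have h1 := hval (.neg (.and (.eq 0 1) (.neg (.eq 1 0)))) (fun v _ => by
      show ¬ (v 0 = v 1 ∧ ¬ v 1 = v 0)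
      exact fun h => h.2 h.1.symm) (q4 s t t t)
    by_contra hn
    exact h1 ⟨hst, hn⟩
  have htrans : ∀ r s t : Tm κ, MQ ξ j r s → MQ ξ j s t → MQ ξ j r t := by
    intro r s t h2 h3
    have h1 := hval (.neg (.and (.and (.eq 0 1) (.eq 1 2)) (.neg (.eq 0 2)))) (fun v _ => by
      show ¬ ((v 0 = v 1 ∧ v 1 = v 2) ∧ ¬ v 0 = v 2)
      exact fun h => h.2 (h.1.1.trans h.1.2)) (q4 r s t t)
    by_contra hn
    exact h1 ⟨⟨h2, h3⟩, hn⟩
  have hcong : ∀ s s' t t' : Tm κ, MQ ξ j s s' → MQ ξ j t t' → ME ξ j s t → ME ξ j s' t' := by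
    intro s s' t t' h2 h3 h4
    have h1 := hval (.neg (.and (.and (.and (.eq 0 1) (.eq 2 3)) (.mem 0 2)) (.neg (.mem 1 3))))
      (fun v _ => by
      show ¬ (((v 0 = v 1 ∧ v 2 = v 3) ∧ v 0 ∈ v 2) ∧ ¬ v 1 ∈ v 3)
      rintro ⟨⟨⟨h5, h6⟩, h7⟩, h8⟩
      rw [h5, h6] at h7
      exact h8 h7) (q4 s s' t t')
    by_contra hn
    exact h1 ⟨⟨⟨h2, h3⟩, h4⟩, hn⟩
  have hext : ∀ s t : Tm κ, (∀ r, ME ξ j r s ↔ ME ξ j r t) → MQ ξ j s t := by
    intro s t h2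
    have h1 := hval (.neg (.and (.neg (.ex (.and (.mem 0 1) (.neg (.mem 0 2)))))
      (.and (.neg (.ex (.and (.mem 0 2) (.neg (.mem 0 1))))) (.neg (.eq 0 1))))) (fun v hv => by
      rintro ⟨h3, h4, h5⟩
      apply h5
      show v 0 = v 1
      ext z
      constructor
      · intro hz
        by_contra hn
        exact h3 ⟨z, HOD_tra _ (hv 0) z hz, hz, hn⟩
      · intro hz
        by_contra hn
        exact h4 ⟨z, HOD_tra _ (hv 1) z hz, hz, hn⟩) (q4 s t t t)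
    by_contra hn
    refine h1 ⟨?_, ?_, hn⟩
    · rintro ⟨r, h3, h4⟩
      exact h4 ((h2 r).1 h3)
    · rintro ⟨r, h3, h4⟩
      exact h4 ((h2 r).2 h3)
  obtain ⟨π, h1, h2, h3⟩ := hCOL (Tm κ) (ME ξ j) (MQ ξ j) (hWFT ξ κ j h hCC) hrefl hsymm htrans
    hcong hext (hSL ξ κ j h)
  exact ⟨π, h1, h2, fun t x hx => by
    obtain ⟨s, -, hs⟩ := h3 t x hx
    exact ⟨s, hs⟩⟩

end Pool.Agent.H54.WM.PI
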