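import Pool.Agent.H54.WM.Targets

/-!
# POW: the subsets of `V_ κ` in the class are in HOD
-/

open Ordinal Cardinal Order Set
open scoped ZFSet

universe u

namespace Pool.Agent.H54.WM.POW

open _root_.HD Pool.Agent.H54.WM

theorem X (hIDC : T_IDC.{u}) (hTSH : T_TSH.{u}) : T_POW.{u} := by
  intro ξ κ j h π hπ
  obtain ⟨key, -⟩ := hIDC ξ κ j h π hπ
  have main : ∀ x : ZFSet.{u}, ∀ t, π t = x → x ⊆ V_ κ → HOD x := by
    intro x
    induction x using ZFSet.inductionOn with
    | _ x ih =>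
      intro t ht hx
      have hy : ∀ y ∈ x, HOD y := by
        intro y hyx
        have h1 := hyx
        rw [← ht] at h1
        obtain ⟨s, hs⟩ := hπ.tra _ y h1
        refine ih y hyx s hs fun z hz => ?_
        have h2 := hx hyx
        rw [ZFSet.mem_vonNeumann] at h2 ⊢
        exact (ZFSet.rank_lt_of_mem hz).trans h2
      obtain ⟨B, hBdef⟩ : ∃ B, B = j (TS ξ (.mem 0 1) (sv [idf ξ, t.f])) := ⟨_, rfl⟩
      have hsv : ∀ n, HOD (sv [idf ξ, t.f] n) := by
        intro n
        rcases n with _ | _ | n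
        · exact hod_idf ξ
        · exact t.hf
        · exact hod_empty
      have hB : HOD B := by
        rw [hBdef]
        exact (h.emb.map _ ⟨hTSH ξ _ _ hsv, fun w hw => HV_sub ξ (mem_TS.1 hw).1⟩).1
      have hME : ∀ (y : ZFSet.{u}) (hyV : y ∈ HV κ),
          ME ξ j (idt ξ y hyV) t ↔ tup [y, t.b] ∈ B := by
        intro y hyV
        rw [hBdef]
        exact Iff.rfl
      have hmem : ∀ y, y ∈ x ↔ y ∈ HV κ ∧ tup [y, t.b] ∈ B := by
        intro y
        constructor
        · intro hyx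
          have hyV : y ∈ HV κ := mem_HV.2 ⟨hx hyx, hy y hyx⟩
          refine ⟨hyV, ?_⟩
          rw [← hME y hyV, hπ.mem, key y hyV, ht]
          exact hyx
        · rintro ⟨hyV, h1⟩
          rw [← hME y hyV, hπ.mem, key y hyV, ht] at h1
          exact h1
      refine hod_iff.2 ⟨?_, hy⟩
      refine OD.of_mem (P := fun v => v 0 ∈ HV κ ∧ tup [v 0, t.b] ∈ B) ?_ fun v => (hmem _).symm
      refine (DZ.od (R := fun b v => v 0 ∈ b) (hod_HV κ).od (DZ.mem 1 0)).and ?_
      refine DZ.od (R := fun b v => tup [v 0, b] ∈ B) (mem_HV.1 t.hb).2.od ?_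
      refine DZ.od (R := fun B v => tup [v 1, v 0] ∈ B) hB.od ?_
      refine (D0.exMem (R := fun p v => p = tup [v 2, v 1]) 0 (D0.tup2 0 3 2)).dz.congr
        fun v => ?_
      simp
  exact fun t ht => main _ t rfl ht

end Pool.Agent.H54.WM.POW
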