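import Pool.Agent.H54.WM.Targets

/-!
# ST: satisfaction in the collapse
-/

open Ordinal Cardinal Order Set
open scoped ZFSet

universe u

namespace Pool.Agent.H54.WM.ST

open _root_.HD Pool.Agent.H54.WM

theorem X : T_ST.{u} := by
  intro ξ κ j π hπ φ
  induction φ with
  | mem i l => exact fun t => hπ.mem _ _
  | eq i l => exact fun t => hπ.eq _ _
  | neg φ ih => exact fun t => not_congr (ih t)
  | and φ ψ ih1 ih2 => exact fun t => and_congr (ih1 t) (ih2 t)
  | ex φ ih =>
    intro t
    have h : ∀ s, π ∘ tcons s t = cons (π s) (π ∘ t) := by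
      intro s
      funext n
      cases n <;> rfl
    constructor
    · rintro ⟨s, hs⟩
      refine ⟨π s, ⟨s, rfl⟩, ?_⟩
      rw [← h]
      exact (ih _).1 hs
    · rintro ⟨x, ⟨s, rfl⟩, hx⟩
      refine ⟨s, (ih _).2 ?_⟩
      rw [h]
      exact hx

end Pool.Agent.H54.WM.ST
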