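import Pool.Agent.H54.WM.Targets

/-!
# TYI: sections of images are in the class
-/

open Ordinal Cardinal Order Set
open scoped ZFSet

universe u

namespace Pool.Agent.H54.WM.TYI

open _root_.HD Pool.Agent.H54.WM

theorem d0_pm (a b c : ℕ) : D0.{u} fun v => ZFSet.pair (v a) (v b) ∈ v c := by
  refine (D0.exMem (R := fun p v => p = ZFSet.pair (v a) (v b)) c
    (D0.pair 0 (a + 1) (b + 1))).congr fun v => ?_
  simp

theorem mem_pair_left (u z : ZFSet.{u}) : ({u, z} : ZFSet.{u}) ∈ ZFSet.pair u z := by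
  unfold ZFSet.pair
  exact ZFSet.mem_pair.2 (Or.inr rfl)

theorem mem_UU {u y z : ZFSet.{u}} (h : ZFSet.pair u z ∈ y) : z ∈ (⋃₀ ⋃₀ y : ZFSet.{u}) := by
  rw [ZFSet.mem_sUnion]
  refine ⟨{u, z}, ?_, ZFSet.mem_pair.2 (Or.inr rfl)⟩
  rw [ZFSet.mem_sUnion]
  exact ⟨_, h, mem_pair_left u z⟩

/-- the section of `y` at `u` -/
theorem hod_sec {u y : ZFSet.{u}} (hu : HOD u) (hy : HOD y) :
    HOD (ZFSet.sep (fun z => ZFSet.pair u z ∈ y) (⋃₀ ⋃₀ y : ZFSet.{u})) := by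
  refine hod_iff.2 ⟨?_, fun z hz => (HOD_of_pair (HOD_tra _ hy _ (ZFSet.mem_sep.1 hz).2)).2⟩
  refine OD.of_mem (P := fun v => ZFSet.pair u (v 0) ∈ y) ?_ fun v => ?_
  · refine DZ.od (R := fun a v => ZFSet.pair a (v 0) ∈ y) hu.od
      (DZ.od (R := fun b v => ZFSet.pair (v 0) (v 1) ∈ b) hy.od ?_)
    exact (d0_pm 1 2 0).dz
  · rw [ZFSet.mem_sep]
    exact ⟨fun h => ⟨mem_UU h, h⟩, fun h => h.2⟩

theorem X : T_TYI.{u} := by
  intro ξ κ j M jj hB hW y x u hy hu hx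
  obtain ⟨ψ, hψ⟩ := d0_pm.{u} 2 0 3
  let φ : Fml := .neg (.ex (.ex (.neg (.ex (.neg (.ex (.neg
    (.and (.neg (.and (.mem 0 1) (.neg ψ))) (.neg (.and ψ (.neg (.mem 0 1))))))))))))
  have hH : Sat HOD φ (fun _ => ∅) := by
    rintro ⟨y, hy, u, hu, hn⟩
    apply hn
    refine ⟨_, hod_sec hu hy, ?_⟩
    rintro ⟨z, hz, hn⟩
    have hv : ∀ n, HOD (cons z (cons (ZFSet.sep (fun z => ZFSet.pair u z ∈ y) (⋃₀ ⋃₀ y))
        (cons u (cons y fun _ => ∅))) n) := by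
      rintro (_ | _ | _ | _ | n)
      exacts [hz, hod_sec hu hy, hu, hy, hod_empty]
    have h1 : ZFSet.pair u z ∈ y ↔ _ := hψ HOD HOD_tra _ hv
    have h0 : z ∈ ZFSet.sep (fun z => ZFSet.pair u z ∈ y) (⋃₀ ⋃₀ y : ZFSet.{u}) ↔
        ZFSet.pair u z ∈ y := by
      rw [ZFSet.mem_sep]
      exact ⟨fun h => h.2, fun h => ⟨mem_UU h, h⟩⟩
    apply hn
    refine ⟨?_, ?_⟩
    · rintro ⟨h2, h3⟩
      exact h3 (h1.1 (h0.1 h2))
    · rintro ⟨h2, h3⟩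
      exact h3 (h0.2 (h1.2 h2))
  have hM := (hW.elem φ (fun _ => ∅) (fun _ => hod_empty)).1 hH
  have hMy : M (j y) := by
    rw [← hW.ext y hy]
    exact hW.map y hy.1
  have hMu : M u := hW.low u hu
  have hM0 : M (jj ∅) := hW.map ∅ hod_empty
  by_contra hMx
  refine hM ⟨j y, hMy, u, hMu, ?_⟩
  rintro ⟨x', hx', h'⟩
  have hz : ∀ z, M z → (z ∈ x' ↔ ZFSet.pair u z ∈ j y) := by
    intro z hz
    have hv : ∀ n, M (cons z (cons x' (cons u (cons (j y) (jj ∘ fun _ => ∅)))) n) := by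
      rintro (_ | _ | _ | _ | n)
      exacts [hz, hx', hMu, hMy, hM0]
    have h1 := hψ M hW.tra _ hv
    by_contra hn
    refine h' ⟨z, hz, ?_⟩
    rintro ⟨h2, h3⟩
    apply hn
    constructor
    · intro h4
      by_contra h5
      exact h2 ⟨h4, fun h6 => h5 (h1.2 h6)⟩
    · intro h4
      by_contra h5
      exact h3 ⟨h1.1 h4, h5⟩
  have hxx : x' = x := by
    ext z
    constructor
    · intro h
      exact (hx z).2 ((hz z (hW.tra _ hx' z h)).1 h)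
    · intro h
      have h1 := (hx z).1 h
      have h2 : M ({u, z} : ZFSet.{u}) := hW.tra _ (hW.tra _ hMy _ h1) _ (mem_pair_left u z)
      exact (hz z (hW.tra _ h2 z (ZFSet.mem_pair.2 (Or.inr rfl)))).2 h1
  rw [hxx] at hx'
  exact hMx hx'

end Pool.Agent.H54.WM.TYI
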