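import Pool.Agent.H54.WM.HF

/-!
# Elementary embeddings of HOD: targets
-/

open Ordinal Cardinal Order Set
open scoped ZFSet

universe u

namespace Pool.Agent.H54.WM

open _root_.HD

/-- `jj` is an elementary embedding of HOD into the transitive class `M` which extends `j`. -/
structure WEmb (ξ κ : Ordinal.{u}) (j : ZFSet.{u} → ZFSet.{u}) (M : ZFSet.{u} → Prop)
    (jj : ZFSet.{u} → ZFSet.{u}) : Prop where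
  tra : ∀ x, M x → ∀ y ∈ x, M y
  map : ∀ x, HOD x → M (jj x)
  elem : ∀ (φ : Fml) (v : ℕ → ZFSet.{u}), (∀ n, HOD (v n)) → (Sat HOD φ v ↔ Sat M φ (jj ∘ v))
  ext : ∀ x, VH ξ x → jj x = j x
  low : ∀ x ∈ HV κ, M x
  pow : ∀ x, M x → x ⊆ V_ κ → HOD x
  gen : ∀ y, M y → ∃ f a, HOD f ∧ a ∈ HV κ ∧ y = ap (jj f) a

/-- the hypotheses on `ξ`, `κ` and `j` -/
structure Bas (ξ κ : Ordinal.{u}) (j : ZFSet.{u} → ZFSet.{u}) : Prop where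
  lξ : IsSuccLimit ξ
  lκ : IsSuccLimit κ
  le : ξ ≤ κ
  emb : HEmb ξ κ j

/-- TR. Transfer of absolute predicates. -/
def T_TR : Prop := ∀ (ξ κ : Ordinal.{u}) (j : ZFSet.{u} → ZFSet.{u}), Bas ξ κ j →
  (∀ R : ZFSet.{u} → ZFSet.{u} → (ℕ → ZFSet.{u}) → Prop,
    (D0 fun v => R (v 0) (v 1) (fun n => v (n + 2))) → ∀ v, (∀ n, VH ξ (v n)) →
      ((∀ w ∈ HV ξ, ∀ w' ∈ HV ξ, R w w' v) ↔ ∀ w ∈ HV κ, ∀ w' ∈ HV κ, R w w' (j ∘ v))) ∧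
  j (HV ξ) = HV κ ∧ j ∅ = ∅

/-- TSH. The truth sets are in HOD. -/
def T_TSH : Prop := ∀ (ξ : Ordinal.{u}) (φ : Fml) (f : ℕ → ZFSet.{u}), (∀ n, HOD (f n)) →
  HOD (TS ξ φ f)

/-- CHC. A choice function in HOD. -/
def T_CHC : Prop := ∀ (ξ : Ordinal.{u}) (φ : Fml) (f : ℕ → ZFSet.{u}), (∀ n, HOD (f n)) →
  ∃ h, HOD h ∧ ∀ w ∈ HV ξ,
    (∃ y, HOD y ∧ Sat HOD φ (cons y fun n => ap (f n) (pr n w))) →
      HOD (ap h w) ∧ Sat HOD φ (cons (ap h w) fun n => ap (f n) (pr n w))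

/-- LOS. The theorem of Los. -/
def T_LOS : Prop := ∀ (ξ κ : Ordinal.{u}) (j : ZFSet.{u} → ZFSet.{u}), Bas ξ κ j →
  ∀ (φ : Fml) (t : ℕ → Tm κ) (k : ℕ) (c : ZFSet.{u}), bd φ ≤ k → c ∈ HV κ →
    (∀ n < k, pr n c = (t n).b) →
      (SatT (ME ξ j) (MQ ξ j) φ t ↔ c ∈ j (TS ξ φ fun n => (t n).f))

/-- WFT. The structure of the terms is well-founded. -/
def T_WFT : Prop := ∀ (ξ κ : Ordinal.{u}) (j : ZFSet.{u} → ZFSet.{u}), Bas ξ κ j → CC ξ κ j →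
  WellFounded fun s t : Tm κ => ME ξ j s t

/-- COL. The collapse. -/
def T_COL : Prop := ∀ (α : Type (u + 1)) (E Q : α → α → Prop), WellFounded E → (∀ s, Q s s) →
  (∀ s t, Q s t → Q t s) → (∀ r s t, Q r s → Q s t → Q r t) →
  (∀ s s' t t', Q s s' → Q t t' → E s t → E s' t') →
  (∀ s t, (∀ r, E r s ↔ E r t) → Q s t) →
  (∀ t, ∃ (ι : Type u) (g : ι → α), ∀ s, E s t → ∃ i, E (g i) t ∧ Q s (g i)) →
    ∃ π : α → ZFSet.{u}, (∀ s t, E s t ↔ π s ∈ π t) ∧ (∀ s t, Q s t ↔ π s = π t) ∧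
      ∀ t, ∀ x ∈ π t, ∃ s, E s t ∧ π s = x

/-- SL. The elements of a term form a set. -/
def T_SL : Prop := ∀ (ξ κ : Ordinal.{u}) (j : ZFSet.{u} → ZFSet.{u}), Bas ξ κ j →
  ∀ t : Tm κ, ∃ (ι : Type u) (g : ι → Tm κ), ∀ s, ME ξ j s t →
    ∃ i, ME ξ j (g i) t ∧ MQ ξ j s (g i)

/-- SD. The terms for the elements of `(V_ κ)^HOD`. -/
def T_SD : Prop := ∀ (ξ κ : Ordinal.{u}) (j : ZFSet.{u} → ZFSet.{u}) (h : Bas ξ κ j),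
  (∀ (c d : ZFSet.{u}) (hc : c ∈ HV κ) (hd : d ∈ HV κ), ME ξ j (idt ξ c hc) (idt ξ d hd) ↔ c ∈ d) ∧
  (∀ (s : Tm κ) (d : ZFSet.{u}) (hd : d ∈ HV κ), ME ξ j s (idt ξ d hd) →
    ∃ (c : ZFSet.{u}) (hc : c ∈ HV κ), MQ ξ j s (idt ξ c hc)) ∧
  (∀ (x : ZFSet.{u}) (hx : VH ξ x) (c : ZFSet.{u}) (hc : c ∈ HV κ),
    ME ξ j (idt ξ c hc) (ct ξ h.lκ x hx.1) ↔ c ∈ j x) ∧
  ∀ (x : ZFSet.{u}) (hx : VH ξ x) (s : Tm κ), ME ξ j s (ct ξ h.lκ x hx.1) →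
    ∃ (c : ZFSet.{u}) (hc : c ∈ HV κ), MQ ξ j s (idt ξ c hc)

/-- `π` is a collapse of the structure of the terms. -/
structure IsPi (ξ κ : Ordinal.{u}) (j : ZFSet.{u} → ZFSet.{u}) (π : Tm κ → ZFSet.{u}) : Prop where
  mem : ∀ s t, ME ξ j s t ↔ π s ∈ π t
  eq : ∀ s t, MQ ξ j s t ↔ π s = π t
  tra : ∀ t, ∀ x ∈ π t, ∃ s, π s = x

/-- PI. The collapse of the structure of the terms. -/
def T_PI : Prop := ∀ (ξ κ : Ordinal.{u}) (j : ZFSet.{u} → ZFSet.{u}), Bas ξ κ j → CC ξ κ j →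
  ∃ π : Tm κ → ZFSet.{u}, IsPi ξ κ j π

/-- IDC. The elements of `V_ κ` and the images of subsets of `V_ ξ`. -/
def T_IDC : Prop := ∀ (ξ κ : Ordinal.{u}) (j : ZFSet.{u} → ZFSet.{u}) (h : Bas ξ κ j)
  (π : Tm κ → ZFSet.{u}), IsPi ξ κ j π →
    (∀ (c : ZFSet.{u}) (hc : c ∈ HV κ), π (idt ξ c hc) = c) ∧
    ∀ (x : ZFSet.{u}) (hx : VH ξ x), π (ct ξ h.lκ x hx.1) = j x

/-- ST. Satisfaction in the collapse. -/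
def T_ST : Prop := ∀ (ξ κ : Ordinal.{u}) (j : ZFSet.{u} → ZFSet.{u}) (π : Tm κ → ZFSet.{u}),
  IsPi ξ κ j π → ∀ (φ : Fml) (t : ℕ → Tm κ),
    (SatT (ME ξ j) (MQ ξ j) φ t ↔ Sat (fun x => ∃ s, π s = x) φ (π ∘ t))

/-- ELE. The embedding is elementary. -/
def T_ELE : Prop := ∀ (ξ κ : Ordinal.{u}) (j : ZFSet.{u} → ZFSet.{u}) (h : Bas ξ κ j)
  (π : Tm κ → ZFSet.{u}), IsPi ξ κ j π → ∀ (φ : Fml) (v : ℕ → ZFSet.{u}) (hv : ∀ n, HOD (v n)),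
    (Sat HOD φ v ↔ Sat (fun x => ∃ s, π s = x) φ fun n => π (ct ξ h.lκ (v n) (hv n)))

/-- POW. The subsets of `V_ κ` in the class are in HOD. -/
def T_POW : Prop := ∀ (ξ κ : Ordinal.{u}) (j : ZFSet.{u} → ZFSet.{u}), Bas ξ κ j →
  ∀ π : Tm κ → ZFSet.{u}, IsPi ξ κ j π → ∀ t, π t ⊆ V_ κ → HOD (π t)

/-- GEN. The elements of the class are the values of the images of functions. -/
def T_GEN : Prop := ∀ (ξ κ : Ordinal.{u}) (j : ZFSet.{u} → ZFSet.{u}) (h : Bas ξ κ j)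
  (π : Tm κ → ZFSet.{u}), IsPi ξ κ j π → ∀ t : Tm κ, π t = ap (π (ct ξ h.lκ t.f t.hf)) t.b

/-- MAI. The extension of the embedding to HOD. -/
def T_MAI : Prop := ∀ (ξ κ : Ordinal.{u}) (j : ZFSet.{u} → ZFSet.{u}), Bas ξ κ j → CC ξ κ j →
  ∃ M jj, WEmb ξ κ j M jj

/-- YP. The embeddings between rank initial segments, with their values. -/
def T_YP : Prop := ∀ K : Cardinal.{u}, K.IsRegular → ℵ₀ < K →
  ∀ (E : Ordinal.{u} → ZFSet.{u}) (C0 : Set Ordinal.{u}), Clb K.ord C0 →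
  (∀ ζ, VH K.ord (E ζ)) → (∀ x, VH K.ord x → ∃ ζ < K.ord, x = E ζ) →
  (∀ ξ ∈ C0, ξ < K.ord → ∀ x, VH ξ x → ∃ ζ < ξ, x = E ζ ∩ V_ ξ) →
  ∃ C, Clb K.ord C ∧ ∀ ξ ∈ C, ξ < K.ord → IsSuccLimit ξ ∧
    (∀ x, VH ξ x → ∃ ζ < ξ, x = E ζ ∩ V_ ξ) ∧
    ∃ j, HEmb ξ K.ord j ∧ ∀ ζ < ξ, j (E ζ ∩ V_ ξ) = E ζ

/-- CLB. Countable completeness. -/
def T_CLB : Prop := ∀ K : Cardinal.{u}, K.IsRegular → ℵ₀ < K → VFV K →
  (∀ τ < K, τ ^ ℵ₀ < K) → ∀ X : ℕ → ZFSet.{u}, (∀ n, VH K.ord (X n)) →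
  ∃ C, Clb K.ord C ∧ ∀ ξ ∈ C, ξ < K.ord → ℵ₀ < ξ.cof →
    ∃ j, Bas ξ K.ord j ∧ CC ξ K.ord j ∧ ∀ n, ∃ x, VH ξ x ∧ j x = X n

/-- NA. A cardinal of HOD. -/
def T_NA : Prop := ∀ (γ ξ : Ordinal.{u}), γ < ξ → OntoHOD γ ξ → ¬ ∃ M j, CEmb ξ M j

/-- FIX. Fixed points. -/
def T_FIX : Prop := ∀ (ξ κ : Ordinal.{u}) (j : ZFSet.{u} → ZFSet.{u}) (M : ZFSet.{u} → Prop)
  (jj : ZFSet.{u} → ZFSet.{u}), Bas ξ κ j → WEmb ξ κ j M jj → ∀ K : Cardinal.{u}, K.IsRegular →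
    ℵ₀ < K → κ < K.ord → (∀ τ < K.ord, ∃ β < K.ord, PowHOD τ β) → jj K.ord.toZFSet = K.ord.toZFSet

/-- HOD satisfies `2 ^ K = K ^ +`, and the cofinality of `K ^ +` of HOD is `ω` (more precisely, the
subsets of `K` in HOD have an enumeration in HOD of length `lam`, the cofinality of `lam` is `ω`,
and in HOD each ordinal `β`, `0 < β < lam`, is an image of `K`). -/
def GI (K : Cardinal.{u}) : Prop := ∃ (lam : Ordinal.{u}) (g : ZFSet.{u}), lam.cof = ℵ₀ ∧ HOD g ∧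
  (∀ x, HOD x → x ⊆ K.ord.toZFSet → ∃ a < lam, ap g a.toZFSet = x) ∧
  ∀ β < lam, 0 < β → OntoHOD K.ord β

/-- TYX. Countably many sets whose sections are the subsets of `K` in HOD. -/
def T_TYX : Prop := ∀ K : Cardinal.{u}, K.IsRegular → ℵ₀ < K → GI K →
  ∃ X : ℕ → ZFSet.{u}, (∀ n, VH K.ord (X n)) ∧ ∀ x, HOD x → x ⊆ K.ord.toZFSet →
    ∃ n, ∃ u ∈ HV K.ord, ∀ z, z ∈ x ↔ ZFSet.pair u z ∈ X n

/-- TYI. The power set of `κ`. -/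
def T_TYI : Prop := ∀ (ξ κ : Ordinal.{u}) (j : ZFSet.{u} → ZFSet.{u}) (M : ZFSet.{u} → Prop)
  (jj : ZFSet.{u} → ZFSet.{u}), Bas ξ κ j → WEmb ξ κ j M jj → ∀ y x u : ZFSet.{u}, VH ξ y →
    u ∈ HV κ → (∀ z, z ∈ x ↔ ZFSet.pair u z ∈ j y) → M x

/-- SIN. A singular cardinal. -/
def T_SIN : Prop := ∀ δ : Ordinal.{u}, ∃ γ : Cardinal.{u}, ℵ₀ ≤ γ ∧ ¬ γ.IsRegular ∧ δ < γ.ord ∧
  ∀ τ < succ γ, τ ^ ℵ₀ < succ γ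

end Pool.Agent.H54.WM
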