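import Pool.Agent.H54.WM.Targets
import Pool.Agent.H54.WM.LOS
import Pool.Agent.H54.WM.ST
import Pool.Agent.H54.WM.ELE
import Pool.Agent.H54.WM.PI
import Pool.Agent.H54.WM.TYI
import Pool.Agent.H54.WM.IDC
import Pool.Agent.H54.WM.POW
import Pool.Agent.H54.WM.YP
import Pool.Agent.H54.WM.SO
import Pool.Agent.H42.WM.TR
import Pool.Agent.H42.WM.TSH
import Pool.Agent.H93.WM.CHC
import Pool.Agent.H93.WM.WFT
import Pool.Agent.H60.WM.COL
import Pool.Agent.H60.WM.SL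
import Pool.Agent.H14.WM.SD
import Pool.Agent.H34.WM.GEN
import Pool.Agent.H34.WM.NA
import Pool.Agent.H47.WM.CLB
import Pool.Agent.H68.WM.MAI
import Pool.Agent.H70.WM.FIX
import Pool.Agent.H69.WM.TYX
import Pool.Agent.H7.HD9.Asm9

/-!
# Elementary embeddings of HOD into transitive classes: assembly (MP_e37c09_lc)
-/

open Ordinal Cardinal Order Set
open scoped ZFSet

universe u

namespace Pool.Agent.H54.WM

open _root_.HD

/-- `j` is an elementary embedding of HOD into the transitive class `M`, its restriction to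
`(V_ (ξ + 1))^HOD` is an elementary embedding into `(V_ (K + 1))^HOD` with critical point `ξ` which
maps `ξ` to `K`, the elements of `V_ K` in `M` and in HOD are the same, the subsets of `V_ K` in `M`
are in HOD, the regular cardinals greater than `K` are fixed, and if HOD satisfies `2 ^ K = K ^ +`
and `K ^ +` of HOD has cofinality `ω` then the subsets of `K` in HOD are in `M`. -/
structure HodEmb (ξ : Ordinal.{u}) (K : Cardinal.{u}) (M : ZFSet.{u} → Prop)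
    (j : ZFSet.{u} → ZFSet.{u}) : Prop where
  tra : ∀ x, M x → ∀ y ∈ x, M y
  map : ∀ x, HOD x → M (j x)
  elem : ∀ (φ : Fml) (v : ℕ → ZFSet.{u}), (∀ n, HOD (v n)) → (Sat HOD φ v ↔ Sat M φ (j ∘ v))
  emb : HEmb ξ K.ord j
  low : ∀ x ∈ V_ K.ord, (M x ↔ HOD x)
  pow : ∀ x, M x → x ⊆ V_ K.ord → HOD x
  reg : ∀ K' : Cardinal.{u}, K'.IsRegular → K < K' → j K'.ord.toZFSet = K'.ord.toZFSet
  typ : GI K → ∀ x, HOD x → x ⊆ K.ord.toZFSet → M x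

/-- The embeddings of HOD with target `K`, where `K` is not the successor of a cardinal of
cofinality `ω` -/
def WMC (K : Cardinal.{u}) : Prop := (∀ μ : Cardinal.{u}, K = succ μ → μ.ord.cof ≠ ℵ₀) →
  ∃ C, Clb K.ord C ∧ ∀ ξ ∈ C, ξ < K.ord → ℵ₀ < ξ.cof → ∃ M j, HodEmb ξ K M j

theorem HodEmb.cemb {ξ : Ordinal.{u}} {K : Cardinal.{u}} {M : ZFSet.{u} → Prop}
    {j : ZFSet.{u} → ZFSet.{u}} (h : HodEmb ξ K M j) (hξ : ξ < K.ord) : CEmb ξ M j := by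
  refine ⟨h.tra, h.map, h.elem, fun a ha => h.emb.fix _ (HOD.ordinal a) ?_, ?_⟩
  · rw [ZFSet.mem_vonNeumann, rank_toZFSet]
    exact ha
  · rw [h.emb.crit]
    intro h1
    exact hξ.ne (toZFSet_injective h1).symm

theorem HEmb.of_eq {ξ κ : Ordinal.{u}} {j jj : ZFSet.{u} → ZFSet.{u}} (h : HEmb ξ κ j)
    (he : ∀ x, VH ξ x → jj x = j x) : HEmb ξ κ jj := by
  refine ⟨fun x hx => ?_, fun φ v hv => ?_, fun x hx hxV => ?_, ?_⟩
  · rw [he x hx]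
    exact h.map x hx
  · have e : jj ∘ v = j ∘ v := by
      funext n
      exact he _ (hv n)
    rw [e]
    exact h.elem φ v hv
  · have hx' : VH ξ x := VH_of_HV (mem_HV.2 ⟨hxV, hx⟩)
    rw [he x hx']
    exact h.fix x hx hxV
  · have hx' : VH ξ ξ.toZFSet := ⟨HOD.ordinal _, by rw [ZFSet.subset_vonNeumann, rank_toZFSet]⟩
    rw [he _ hx']
    exact h.crit

/-- the class in terms of the modules -/
theorem wmc_of (hMAI : T_MAI.{u}) (hCLB : T_CLB.{u}) (hFIX : T_FIX.{u}) (hTYX : T_TYX.{u})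
    (hTYI : T_TYI.{u}) {D G K : Cardinal.{u}} (hB : BG D G) (hK : K.IsRegular)
    (hG : succ G < K) (hSo : (∀ μ : Cardinal.{u}, K = succ μ → μ.ord.cof ≠ ℵ₀) →
      ∀ τ < K, τ ^ ℵ₀ < K) : WMC K := by
  intro hμ
  have hτ := hSo hμ
  have hK0 : ℵ₀ < K := hB.dunc.trans_le (hB.dg.trans ((le_succ G).trans hG.le))
  have hVF : VFV K := All.y3 K hK hK0 (All.pk D G K hB hK ((lt_succ G).trans hG))
    (All.ac D G K hB hK hG)
  -- the countably many sets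
  obtain ⟨X, hX, hX'⟩ : ∃ X : ℕ → ZFSet.{u}, (∀ n, VH K.ord (X n)) ∧ (GI K → ∀ x, HOD x →
      x ⊆ K.ord.toZFSet → ∃ n, ∃ u ∈ HV K.ord, ∀ z, z ∈ x ↔ ZFSet.pair u z ∈ X n) := by
    by_cases hGI : GI K
    · obtain ⟨X, h1, h2⟩ := hTYX K hK hK0 hGI
      exact ⟨X, h1, fun _ => h2⟩
    · exact ⟨fun _ => ∅, fun _ => ⟨hod_empty, fun z hz => absurd hz (ZFSet.notMem_empty z)⟩,
        fun h => absurd h hGI⟩
  obtain ⟨C, hC, hC'⟩ := hCLB K hK hK0 hVF hτ X hX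
  refine ⟨C, hC, fun ξ hξ hξK hcof => ?_⟩
  obtain ⟨j, hBas, hCC, hj⟩ := hC' ξ hξ hξK hcof
  obtain ⟨M, jj, hW⟩ := hMAI ξ K.ord j hBas hCC
  refine ⟨M, jj, hW.tra, hW.map, hW.elem, HEmb.of_eq hBas.emb hW.ext, ?_, hW.pow, ?_, ?_⟩
  · intro x hx
    constructor
    · intro hM
      refine hW.pow x hM fun y hy => ?_
      rw [ZFSet.mem_vonNeumann] at hx ⊢
      exact (ZFSet.rank_lt_of_mem hy).trans hx
    · intro hH
      exact hW.low x (mem_HV.2 ⟨hx, hH⟩)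
  · intro K' hK' hKK'
    exact hFIX ξ K.ord j M jj hBas hW K' hK' (hK0.trans hKK') (Cardinal.ord_lt_ord.2 hKK')
      (All.pk D G K' hB hK' ((lt_succ G).trans (hG.trans hKK')))
  · intro hGI x hx hxK
    obtain ⟨n, w, hw, hz⟩ := hX' hGI x hx hxK
    obtain ⟨y, hy, hjy⟩ := hj n
    refine hTYI ξ K.ord j M jj hBas hW y x w hy hw fun z => ?_
    rw [hjy]
    exact hz z

/-- the main statement -/
def T_WM : Prop := ∀ δ : Ordinal.{u}, Extendible δ →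
  (CaseA δ ∧ ∀ γ : Cardinal.{u}, ℵ₀ ≤ γ → ¬ γ.IsRegular → δ < γ.ord → ∀ ξ, γ.ord < ξ →
    ξ < (succ γ).ord → ¬ ∃ M j, CEmb ξ M j) ∨
  (¬ CaseA δ ∧ (∀ γ : Cardinal.{u}, ¬ γ.IsRegular → ℵ₀ < γ.ord.cof → δ < γ.ord →
    ∃ ξ, γ.ord < ξ ∧ ξ < (succ γ).ord ∧ ∃ M j, HodEmb ξ (succ γ) M j) ∧
    ∀ l < δ, ∃ δ₀ < δ, l < δ₀ ∧ ∀ K : Cardinal.{u}, K.IsRegular → δ₀ < K.ord →
      VE K ∧ TwoTypes K ∧ WMC K)

theorem wm_of (hMAI : T_MAI.{u}) (hCLB : T_CLB.{u}) (hFIX : T_FIX.{u}) (hTYX : T_TYX.{u})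
    (hTYI : T_TYI.{u}) (hNA : T_NA.{u}) : T_WM.{u} := by
  intro δ hδ
  by_cases hA : CaseA δ
  · exact Or.inl ⟨hA, fun γ h1 h2 h3 ξ h4 h5 => hNA γ.ord ξ h4 ((hA γ h1 h2 h3).2 ξ h4 h5)⟩
  have m14 : ∀ l < δ, ∃ δ₀ < δ, l < δ₀ ∧ ∀ K : Cardinal.{u}, K.IsRegular →
      δ₀ < K.ord → VE K ∧ TwoTypes K ∧ WMC K := by
    intro l hl
    obtain ⟨D, h1, h2, h3, h4⟩ := All.gr δ hδ hA l hl
    obtain ⟨η, -, θ, j, hj⟩ := All.xa δ hδ 0
    obtain ⟨D', hD', -, h5, -⟩ := All.xb δ η θ j hj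
    refine ⟨(succ D).ord, ?_, h2.trans (Cardinal.ord_lt_ord.2 (lt_succ D)), fun K hK hDK => ?_⟩
    · rw [hD'] at h1 ⊢
      exact Cardinal.ord_lt_ord.2 (h5.isSuccLimit.succ_lt (Cardinal.ord_lt_ord.1 h1))
    · have hDK' := Cardinal.ord_lt_ord.1 hDK
      have hB := All.bA D h3 h4
      have hK0 : ℵ₀ < K := hB.dunc.trans_le ((le_succ D).trans hDK'.le)
      refine ⟨All.ve_of hB hK hDK', ?_, wmc_of hMAI hCLB hFIX hTYX hTYI hB hK hDK'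
        (SO.X h3.1 h3.2.1 h3.2.2.1 h4 hK ((lt_succ D).trans hDK'))⟩
      obtain ⟨τ₀, g1, -, g3, -, g5, g6⟩ := fin_tau All.rr All.sp All.th h3 hK
        ((lt_succ D).trans hDK')
      exact Pool.Agent.H54.CL.two_types hK0 hK (All.ac D D K hB hK hDK')
        ⟨τ₀, g1, g3, g5, fun lam g1 g2 g3 => (g6 lam g1 g2 g3).1⟩
  refine Or.inr ⟨hA, fun γ h2 h1c h3 => ?_, m14⟩
  obtain ⟨δ₀, h4, -, h5⟩ := m14 0 (by
    obtain ⟨η, -, θ, j, hj⟩ := All.xa δ hδ 0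
    obtain ⟨D', hD', -, -, h6⟩ := All.xb δ η θ j hj
    rw [hD']
    exact (Cardinal.isSuccLimit_ord h6.le).bot_lt)
  have h1 : ℵ₀ ≤ γ := h1c.le.trans (by
    have := Ordinal.cof_le_card γ.ord
    rwa [Cardinal.card_ord] at this)
  have h7 : γ.ord < (succ γ).ord := Cardinal.ord_lt_ord.2 (lt_succ γ)
  have hreg := Cardinal.isRegular_succ h1
  obtain ⟨-, -, h8⟩ := h5 (succ γ) hreg (h4.trans (h3.trans h7))
  obtain ⟨C, hC, hC'⟩ := h8 fun μ hμ => by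
    rw [← Order.succ_injective hμ]
    exact h1c.ne'
  -- a point of cofinality `ω₁`
  obtain ⟨ξ, h9, h10, h11, h12⟩ : ∃ ξ ∈ C, γ.ord < ξ ∧ ξ < (succ γ).ord ∧ ℵ₀ < ξ.cof := by
    have hγ : succ ℵ₀ ≤ γ := by
      refine Order.succ_le_of_lt (lt_of_le_of_ne h1 ?_)
      intro he
      apply h2
      rw [← he]
      exact Cardinal.isRegular_aleph0
    have hcof : (succ γ).ord.cof = succ γ := hreg.cof_ord
    have hP := All.vc (succ ℵ₀) (succ γ).ord (Cardinal.isRegular_succ le_rfl)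
      (by rw [hcof]; exact hγ.trans_lt (lt_succ γ))
    have hC2 : Clb (succ γ).ord (C ∩ Ioi γ.ord) := by
      constructor
      · intro a ha
        obtain ⟨b, hb1, hb2, hb3⟩ := hC.unb (max a γ.ord) (max_lt ha h7)
        exact ⟨b, hb1, (le_max_left _ _).trans_lt hb2, hb3, (le_max_right _ _).trans_lt hb2⟩
      · intro x hx hx0 hx'
        refine ⟨hC.cls x hx hx0 fun y hy => ?_, ?_⟩
        · obtain ⟨z, hz1, hz2, hz3⟩ := hx' y hy
          exact ⟨z, hz1, hz2, hz3.1⟩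
        · obtain ⟨z, hz1, -, hz3⟩ := hx' 0 hx0
          exact lt_trans hz3.2 hz1
    obtain ⟨ξ, h13, h14, -, h15⟩ := hP _ hC2
    refine ⟨ξ, h14.1, h14.2, h13, ?_⟩
    have h16 : ξ.cof.ord = (succ ℵ₀ : Cardinal.{u}).ord := h15
    rw [Cardinal.ord_injective h16]
    exact lt_succ _
  exact ⟨ξ, h10, h11, hC' ξ h9 h11 h12⟩

theorem wm : T_WM.{u} := by
  have hTR : Pool.Agent.H54.WM.T_TR.{u} := Pool.Agent.H42.WM.TR.X
  have hTSH : T_TSH.{u} := Pool.Agent.H42.WM.TSH.X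
  have hCHC : T_CHC.{u} := Pool.Agent.H93.WM.CHC.X
  have hLOS : T_LOS.{u} := Pool.Agent.H54.WM.LOS.X hTR hTSH hCHC
  have hWFT : T_WFT.{u} := Pool.Agent.H93.WM.WFT.X hTSH
  have hCOL : T_COL.{u} := Pool.Agent.H60.WM.COL.X
  have hSL : T_SL.{u} := Pool.Agent.H60.WM.SL.X hTR hTSH
  have hSD : T_SD.{u} := Pool.Agent.H14.WM.SD.X hTR hTSH
  have hPI : T_PI.{u} := Pool.Agent.H54.WM.PI.X hLOS hTR hWFT hCOL hSL
  have hIDC : T_IDC.{u} := Pool.Agent.H54.WM.IDC.X hSD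
  have hST : T_ST.{u} := Pool.Agent.H54.WM.ST.X
  have hELE : T_ELE.{u} := Pool.Agent.H54.WM.ELE.X hLOS hTR hST
  have hPOW : T_POW.{u} := Pool.Agent.H54.WM.POW.X hIDC hTSH
  have hGEN : T_GEN.{u} := Pool.Agent.H34.WM.GEN.X hLOS hTR hST hIDC hTSH
  have hMAI : T_MAI.{u} := Pool.Agent.H68.WM.MAI.X hPI hIDC hELE hPOW hGEN
  have hCLB : T_CLB.{u} := Pool.Agent.H47.WM.CLB.X Pool.Agent.H54.WM.YP.X
  exact wm_of hMAI hCLB Pool.Agent.H70.WM.FIX.X Pool.Agent.H69.WM.TYX.TYX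
    Pool.Agent.H54.WM.TYI.X Pool.Agent.H34.WM.NA.X

end Pool.Agent.H54.WM
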