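import Pool.Agent.H54.WM.Defs

/-!
# Predicates which are absolute for transitive classes
-/

open Ordinal Cardinal Order Set
open scoped ZFSet

universe u

namespace Pool.Agent.H54.WM

open _root_.HD

/-- `P` is defined by one formula over all transitive classes. -/
def D0 (P : (ℕ → ZFSet.{u}) → Prop) : Prop :=
  ∃ φ : Fml, ∀ M : ZFSet.{u} → Prop, (∀ x, M x → ∀ y ∈ x, M y) → ∀ v : ℕ → ZFSet.{u},
    (∀ n, M (v n)) → (P v ↔ Sat M φ v)

variable {P Q : (ℕ → ZFSet.{u}) → Prop}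

theorem D0.congr (hP : D0 P) (h : ∀ v, Q v ↔ P v) : D0 Q := by
  obtain ⟨φ, hφ⟩ := hP
  exact ⟨φ, fun M hM v hv => (h v).trans (hφ M hM v hv)⟩

theorem D0.mem (i l : ℕ) : D0.{u} fun v => v i ∈ v l := ⟨.mem i l, fun _ _ _ _ => Iff.rfl⟩
theorem D0.eq (i l : ℕ) : D0.{u} fun v => v i = v l := ⟨.eq i l, fun _ _ _ _ => Iff.rfl⟩

theorem D0.not (hP : D0 P) : D0 fun v => ¬ P v := by
  obtain ⟨φ, hφ⟩ := hP
  exact ⟨.neg φ, fun M hM v hv => not_congr (hφ M hM v hv)⟩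

theorem D0.and (hP : D0 P) (hQ : D0 Q) : D0 fun v => P v ∧ Q v := by
  obtain ⟨φ, hφ⟩ := hP
  obtain ⟨ψ, hψ⟩ := hQ
  exact ⟨.and φ ψ, fun M hM v hv => and_congr (hφ M hM v hv) (hψ M hM v hv)⟩

theorem D0.or (hP : D0 P) (hQ : D0 Q) : D0 fun v => P v ∨ Q v :=
  (hP.not.and hQ.not).not.congr fun v => by tauto

theorem D0.imp (hP : D0 P) (hQ : D0 Q) : D0 fun v => P v → Q v :=
  (hP.and hQ.not).not.congr fun v => by tauto

theorem D0.iff (hP : D0 P) (hQ : D0 Q) : D0 fun v => P v ↔ Q v :=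
  ((hP.imp hQ).and (hQ.imp hP)).congr fun v => by tauto

theorem D0.ren (hP : D0 P) (σ : ℕ → ℕ) : D0 fun v => P (fun n => v (σ n)) := by
  obtain ⟨φ, hφ⟩ := hP
  refine ⟨φ.ren σ, fun M hM v hv => ?_⟩
  rw [sat_ren]
  exact hφ M hM _ fun n => hv _

theorem D0.exMem {R : ZFSet.{u} → (ℕ → ZFSet.{u}) → Prop} (i : ℕ)
    (h : D0 fun v => R (v 0) (fun n => v (n + 1))) : D0 fun v => ∃ x ∈ v i, R x v := by
  obtain ⟨φ, hφ⟩ := h
  refine ⟨.ex (.and (.mem 0 (i + 1)) φ), fun M hM v hv => ?_⟩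
  have hc : ∀ x, M x → ∀ n, M (cons x v n) := by
    rintro x hx (_ | n)
    exacts [hx, hv n]
  constructor
  · rintro ⟨x, hx, hR⟩
    have hMx : M x := hM _ (hv i) x hx
    exact ⟨x, hMx, hx, (hφ M hM _ (hc x hMx)).1 hR⟩
  · rintro ⟨x, hMx, hx, hR⟩
    exact ⟨x, hx, (hφ M hM _ (hc x hMx)).2 hR⟩

theorem D0.allMem {R : ZFSet.{u} → (ℕ → ZFSet.{u}) → Prop} (i : ℕ)
    (h : D0 fun v => R (v 0) (fun n => v (n + 1))) : D0 fun v => ∀ x ∈ v i, R x v :=
  (D0.exMem (R := fun x v => ¬ R x v) i h.not).not.congr fun v => by push Not; rfl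

theorem D0.empty (i : ℕ) : D0.{u} fun v => v i = ∅ := by
  refine (D0.allMem (R := fun x v => ¬ v i = v i) i (D0.eq (i + 1) (i + 1)).not).congr fun v => ?_
  rw [ZFSet.eq_empty]
  simp

theorem D0.upair (i a b : ℕ) : D0.{u} fun v => v i = {v a, v b} := by
  refine (((D0.mem a i).and (D0.mem b i)).and (D0.allMem (R := fun x v => x = v a ∨ x = v b) i
    ((D0.eq 0 (a + 1)).or (D0.eq 0 (b + 1))))).congr fun v => ?_
  constructor
  · intro h
    rw [h]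
    exact ⟨⟨ZFSet.mem_pair.2 (Or.inl rfl), ZFSet.mem_pair.2 (Or.inr rfl)⟩,
      fun x hx => ZFSet.mem_pair.1 hx⟩
  · rintro ⟨⟨h1, h2⟩, h3⟩
    ext z
    rw [ZFSet.mem_pair]
    refine ⟨h3 z, ?_⟩
    rintro (rfl | rfl)
    · exact h1
    · exact h2

theorem pair_eq (x y : ZFSet.{u}) : ZFSet.pair x y = {{x, x}, {x, y}} := by
  unfold ZFSet.pair
  rw [ZFSet.pair_eq_singleton]

theorem D0.pair (i a b : ℕ) : D0.{u} fun v => v i = ZFSet.pair (v a) (v b) := by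
  refine (D0.exMem (R := fun x v => x = {v a, v a} ∧ ∃ y ∈ v i, y = {v a, v b} ∧ v i = {x, y}) i
    ((D0.upair 0 (a + 1) (a + 1)).and (D0.exMem (R := fun y v => y = {v (a + 1), v (b + 1)} ∧
      v (i + 1) = {v 0, y}) (i + 1)
      ((D0.upair 0 (a + 2) (b + 2)).and (D0.upair (i + 2) 1 0))))).congr fun v => ?_
  rw [pair_eq]
  constructor
  · intro h
    refine ⟨_, ?_, rfl, _, ?_, rfl, h⟩
    · rw [h]
      exact ZFSet.mem_pair.2 (Or.inl rfl)
    · rw [h]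
      exact ZFSet.mem_pair.2 (Or.inr rfl)
  · rintro ⟨x, -, rfl, y, -, rfl, h⟩
    exact h

/-- quantification over the coordinates of a pair -/
theorem D0.exPair {R : ZFSet.{u} → ZFSet.{u} → (ℕ → ZFSet.{u}) → Prop} (i : ℕ)
    (h : D0 fun v => R (v 0) (v 1) (fun n => v (n + 2))) :
    D0 fun v => ∃ x y, v i = ZFSet.pair x y ∧ R x y v := by
  refine (D0.exMem (R := fun s v => ∃ t ∈ v i, ∃ x ∈ s, ∃ y ∈ t, v i = ZFSet.pair x y ∧ R x y v) i
    (D0.exMem (R := fun t v => ∃ x ∈ v 0, ∃ y ∈ t, v (i + 1) = ZFSet.pair x y ∧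
      R x y (fun n => v (n + 1))) (i + 1)
      (D0.exMem (R := fun x v => ∃ y ∈ v 0, v (i + 2) = ZFSet.pair x y ∧
        R x y (fun n => v (n + 2))) 1
        (D0.exMem (R := fun y v => v (i + 3) = ZFSet.pair (v 0) y ∧
          R (v 0) y (fun n => v (n + 3))) 1
          ((D0.pair (i + 4) 1 0).and (h.ren (fun n => if n = 0 then 1 else if n = 1 then 0 else
            n + 2))))))).congr fun v => ?_
  constructor
  · rintro ⟨x, y, h1, h2⟩
    refine ⟨{x, x}, ?_, {x, y}, ?_, x, ZFSet.mem_pair.2 (Or.inl rfl), y,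
      ZFSet.mem_pair.2 (Or.inr rfl), h1, h2⟩
    · rw [h1, pair_eq]
      exact ZFSet.mem_pair.2 (Or.inl rfl)
    · rw [h1, pair_eq]
      exact ZFSet.mem_pair.2 (Or.inr rfl)
  · rintro ⟨s, -, t, -, x, -, y, -, h1, h2⟩
    exact ⟨x, y, h1, h2⟩

theorem D0.isPair (i : ℕ) : D0.{u} fun v => ∃ x y, v i = ZFSet.pair x y :=
  (D0.exPair (R := fun x _ v => x = x) i (D0.eq 0 0)).congr fun v => by simp

theorem D0.fs (i l : ℕ) : D0.{u} fun v => v i = fs (v l) := by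
  refine ((D0.exPair (R := fun x _ v => v i = x) l (D0.eq (i + 2) 0)).or
    ((D0.isPair l).not.and (D0.empty i))).congr fun v => ?_
  by_cases h : ∃ x y, v l = ZFSet.pair x y
  · obtain ⟨x, y, h⟩ := h
    rw [h, fs_pair]
    constructor
    · rintro rfl
      exact Or.inl ⟨v i, y, rfl, rfl⟩
    · rintro (⟨x', y', h1, h2⟩ | ⟨h1, -⟩)
      · rw [h2]
        exact (ZFSet.pair_inj.1 h1).1.symm
      · exact absurd ⟨x, y, rfl⟩ h1
  · rw [fs_not h]
    constructor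
    · exact fun h1 => Or.inr ⟨h, h1⟩
    · rintro (⟨x', y', h1, -⟩ | ⟨-, h2⟩)
      · exact absurd ⟨x', y', h1⟩ h
      · exact h2

theorem D0.pr (n : ℕ) : ∀ i l : ℕ, D0.{u} fun v => v i = pr n (v l) := by
  induction n with
  | zero => exact fun i l => D0.fs i l
  | succ n ih =>
    intro i l
    refine ((D0.exPair (R := fun _ y v => v i = WM.pr n y) l (ih (i + 2) 1)).or
      ((D0.isPair l).not.and (D0.empty i))).congr fun v => ?_
    by_cases h : ∃ x y, v l = ZFSet.pair x y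
    · obtain ⟨x, y, h⟩ := h
      rw [h, pr_succ_pair]
      constructor
      · intro h1
        exact Or.inl ⟨x, y, rfl, h1⟩
      · rintro (⟨x', y', h1, h2⟩ | ⟨h1, -⟩)
        · rw [h2, (ZFSet.pair_inj.1 h1).2]
        · exact absurd ⟨x, y, rfl⟩ h1
    · have e : WM.pr (n + 1) (v l) = ∅ := by
        show WM.pr n (sn (v l)) = ∅
        rw [sn_not h, pr_empty]
      rw [e]
      constructor
      · exact fun h1 => Or.inr ⟨h, h1⟩
      · rintro (⟨x', y', h1, -⟩ | ⟨-, h2⟩)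
        · exact absurd ⟨x', y', h1⟩ h
        · exact h2

/-- `v i` is the code of the sequence `v a, v b` -/
theorem D0.tup2 (i a b : ℕ) : D0.{u} fun v => v i = tup [v a, v b] := by
  refine (D0.exPair (R := fun x y v => x = v a ∧ ∃ x' y', y = ZFSet.pair x' y' ∧ x' = v b ∧
    y' = ∅) i ((D0.eq 0 (a + 2)).and (D0.exPair (R := fun x' y' v => x' = v (b + 2) ∧ y' = ∅) 1
      ((D0.eq 0 (b + 4)).and (D0.empty 1))))).congr fun v => ?_
  constructor
  · intro h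
    exact ⟨v a, ZFSet.pair (v b) ∅, h, rfl, v b, ∅, rfl, rfl, rfl⟩
  · rintro ⟨x, y, h1, rfl, x', y', rfl, rfl, rfl⟩
    exact h1

/-- `v i` is the value of `v a` at `v b` -/
theorem D0.ap (i a b : ℕ) : D0.{u} fun v => v i = ap (v a) (v b) := by
  refine ((D0.allMem (R := fun z v => ∃ p ∈ v a, ∃ x y, p = ZFSet.pair x y ∧ x = v b ∧ z ∈ y) i
    (D0.exMem (R := fun p v => ∃ x y, p = ZFSet.pair x y ∧ x = v (b + 1) ∧ v 0 ∈ y) (a + 1)
      (D0.exPair (R := fun x y v => x = v (b + 2) ∧ v 1 ∈ y) 0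
        ((D0.eq 0 (b + 4)).and (D0.mem 3 1))))).and
    (D0.allMem (R := fun p v => ¬ ∃ x y, p = ZFSet.pair x y ∧ x = v b ∧ ∃ z ∈ y, z ∉ v i) a
      (D0.exPair (R := fun x y v => x = v (b + 1) ∧ ∃ z ∈ y, z ∉ v (i + 1)) 0
        ((D0.eq 0 (b + 3)).and (D0.exMem (R := fun z v => z ∉ v (i + 3)) 1
          (D0.mem 0 (i + 4)).not))).not)).congr fun v => ?_
  constructor
  · intro h
    rw [h]
    constructor
    · intro z hz
      obtain ⟨y, h1, h2⟩ := mem_ap.1 hz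
      exact ⟨_, h1, v b, y, rfl, rfl, h2⟩
    · rintro p hp ⟨x, y, rfl, rfl, z, hz, hz'⟩
      exact hz' (mem_ap.2 ⟨y, hp, hz⟩)
  · rintro ⟨h1, h2⟩
    ext z
    rw [mem_ap]
    constructor
    · intro hz
      obtain ⟨p, hp, x, y, rfl, rfl, hzy⟩ := h1 z hz
      exact ⟨y, hp, hzy⟩
    · rintro ⟨y, hp, hzy⟩
      by_contra hz
      exact h2 _ hp ⟨v b, y, rfl, rfl, z, hzy, hz⟩

end Pool.Agent.H54.WM
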