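import Pool.Agent.H7.HD.Targets10
import Pool.Agent.H7.HD.Tools2

/-!
# Elementary embeddings of HOD: definitions (MP_e37c09_lc)

The embedding `j` of `(V_ (ξ + 1))^HOD` into `(V_ (κ + 1))^HOD` is extended to an embedding of HOD
into a transitive class by an ultrapower. Its elements are given by terms, pairs of a point
`b ∈ (V_ κ)^HOD` and a function `f` in HOD.
-/

open Ordinal Cardinal Order Set
open scoped ZFSet

universe u

namespace Pool.Agent.H54.WM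

open _root_.HD

/-! ## Statement-level definitions -/

/-- `j` is an elementary embedding of HOD into the transitive class `M` with critical point `ξ`. -/
structure CEmb (ξ : Ordinal.{u}) (M : ZFSet.{u} → Prop) (j : ZFSet.{u} → ZFSet.{u}) : Prop where
  tra : ∀ x, M x → ∀ y ∈ x, M y
  map : ∀ x, HOD x → M (j x)
  elem : ∀ (φ : Fml) (v : ℕ → ZFSet.{u}), (∀ n, HOD (v n)) → (Sat HOD φ v ↔ Sat M φ (j ∘ v))
  fix : ∀ a < ξ, j a.toZFSet = a.toZFSet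
  crit : j ξ.toZFSet ≠ ξ.toZFSet

/-! ## Coordinates and application -/

/-- the first coordinate of a pair (`∅` for other sets) -/
noncomputable def fs (w : ZFSet.{u}) : ZFSet.{u} :=
  open scoped Classical in if h : ∃ u v, w = ZFSet.pair u v then h.choose else ∅

/-- the second coordinate of a pair (`∅` for other sets) -/
noncomputable def sn (w : ZFSet.{u}) : ZFSet.{u} :=
  open scoped Classical in if h : ∃ u v, w = ZFSet.pair u v then h.choose_spec.choose else ∅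

/-- the `n`-th entry of a finite sequence -/
noncomputable def pr : ℕ → ZFSet.{u} → ZFSet.{u}
  | 0, w => fs w
  | n + 1, w => pr n (sn w)

/-- the code of a finite sequence -/
def tup : List ZFSet.{u} → ZFSet.{u}
  | [] => ∅
  | a :: l => ZFSet.pair a (tup l)

/-- the value of the function `f` at `u` (for an arbitrary set `f` the union of the values) -/
noncomputable def ap (f u : ZFSet.{u}) : ZFSet.{u} :=
  ZFSet.sep (fun z => ∃ y, ZFSet.pair u y ∈ f ∧ z ∈ y) (⋃₀ ⋃₀ ⋃₀ f : ZFSet.{u})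

/-- `(V_ ρ)^HOD` -/
noncomputable def HV (ρ : Ordinal.{u}) : ZFSet.{u} := ZFSet.sep HOD (V_ ρ)

/-! ## Terms -/

/-- a term -/
structure Tm (κ : Ordinal.{u}) : Type (u + 1) where
  b : ZFSet.{u}
  f : ZFSet.{u}
  hb : b ∈ HV κ
  hf : HOD f

/-- the set of the `w ∈ (V_ ξ)^HOD` such that `φ` is true in HOD for the values of the functions
`f n` at the entries of `w` -/
noncomputable def TS (ξ : Ordinal.{u}) (φ : Fml) (f : ℕ → ZFSet.{u}) : ZFSet.{u} :=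
  ZFSet.sep (fun w => Sat HOD φ (fun n => ap (f n) (pr n w))) (HV ξ)

/-- `s` is an element of `t` -/
def ME (ξ : Ordinal.{u}) {κ : Ordinal.{u}} (j : ZFSet.{u} → ZFSet.{u}) (s t : Tm κ) : Prop :=
  tup [s.b, t.b] ∈ j (TS ξ (.mem 0 1) (sv [s.f, t.f]))

/-- `s` is equal to `t` -/
def MQ (ξ : Ordinal.{u}) {κ : Ordinal.{u}} (j : ZFSet.{u} → ZFSet.{u}) (s t : Tm κ) : Prop :=
  tup [s.b, t.b] ∈ j (TS ξ (.eq 0 1) (sv [s.f, t.f]))

/-- the sequence `s, t 0, t 1, ...` -/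
def tcons {α : Type (u + 1)} (s : α) (t : ℕ → α) : ℕ → α
  | 0 => s
  | n + 1 => t n

/-- satisfaction in the structure `(α, E, Q)` in which `=` is interpreted by `Q` -/
def SatT {α : Type (u + 1)} (E Q : α → α → Prop) : Fml → (ℕ → α) → Prop
  | .mem i l, t => E (t i) (t l)
  | .eq i l, t => Q (t i) (t l)
  | .neg φ, t => ¬ SatT E Q φ t
  | .and φ ψ, t => SatT E Q φ t ∧ SatT E Q ψ t
  | .ex φ, t => ∃ s, SatT E Q φ (tcons s t)

/-- the variables of the formula are less than this number -/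
def bd : Fml → ℕ
  | .mem i l => max i l + 1
  | .eq i l => max i l + 1
  | .neg φ => bd φ
  | .and φ ψ => max (bd φ) (bd ψ)
  | .ex φ => bd φ

/-- Countable completeness. -/
def CC (ξ κ : Ordinal.{u}) (j : ZFSet.{u} → ZFSet.{u}) : Prop :=
  ∀ b x : ℕ → ZFSet.{u}, (∀ n, b n ∈ HV κ) → (∀ n, VH ξ (x n)) →
    (∀ n, tup [b (n + 1), b n] ∈ j (x n)) →
    ∃ c : ℕ → ZFSet.{u}, (∀ n, c n ∈ HV ξ) ∧ ∀ n, tup [c (n + 1), c n] ∈ x n

/-! ## Basic facts -/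

theorem fs_pair (u v : ZFSet.{u}) : fs (ZFSet.pair u v) = u := by
  have h : ∃ a b, ZFSet.pair u v = ZFSet.pair a b := ⟨u, v, rfl⟩
  unfold fs
  rw [dif_pos h]
  exact (ZFSet.pair_inj.1 h.choose_spec.choose_spec).1.symm

theorem sn_pair (u v : ZFSet.{u}) : sn (ZFSet.pair u v) = v := by
  have h : ∃ a b, ZFSet.pair u v = ZFSet.pair a b := ⟨u, v, rfl⟩
  unfold sn
  rw [dif_pos h]
  exact (ZFSet.pair_inj.1 h.choose_spec.choose_spec).2.symm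

theorem fs_not {w : ZFSet.{u}} (h : ¬ ∃ u v, w = ZFSet.pair u v) : fs w = ∅ := by
  unfold fs
  rw [dif_neg h]

theorem sn_not {w : ZFSet.{u}} (h : ¬ ∃ u v, w = ZFSet.pair u v) : sn w = ∅ := by
  unfold sn
  rw [dif_neg h]

theorem pair_ne_empty (u v : ZFSet.{u}) : ZFSet.pair u v ≠ ∅ := by
  intro h
  have h1 : ({u} : ZFSet.{u}) ∈ ZFSet.pair u v := by
    unfold ZFSet.pair
    exact ZFSet.mem_pair.2 (Or.inl rfl)
  rw [h] at h1
  exact ZFSet.notMem_empty _ h1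

theorem not_pair_empty : ¬ ∃ u v : ZFSet.{u}, (∅ : ZFSet.{u}) = ZFSet.pair u v := by
  rintro ⟨u, v, h⟩
  exact pair_ne_empty u v h.symm

theorem fs_empty : fs (∅ : ZFSet.{u}) = ∅ := fs_not not_pair_empty
theorem sn_empty : sn (∅ : ZFSet.{u}) = ∅ := sn_not not_pair_empty

theorem pr_empty (n : ℕ) : pr n (∅ : ZFSet.{u}) = ∅ := by
  induction n with
  | zero => exact fs_empty
  | succ n ih =>
    show pr n (sn ∅) = ∅
    rw [sn_empty, ih]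

@[simp] theorem pr_zero_pair (u v : ZFSet.{u}) : pr 0 (ZFSet.pair u v) = u := fs_pair u v
@[simp] theorem pr_succ_pair (n : ℕ) (u v : ZFSet.{u}) :
    pr (n + 1) (ZFSet.pair u v) = pr n v := by
  show pr n (sn _) = _
  rw [sn_pair]

theorem pr_tup (l : List ZFSet.{u}) (n : ℕ) : pr n (tup l) = sv l n := by
  induction l generalizing n with
  | nil =>
    show pr n ∅ = _
    rw [pr_empty]
    simp [sv]
  | cons a l ih =>
    rcases n with _ | n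
    · exact fs_pair _ _
    · show pr (n + 1) (ZFSet.pair a (tup l)) = _
      rw [pr_succ_pair, ih, sv_cons_succ]

theorem mem_ap {f u z : ZFSet.{u}} : z ∈ ap f u ↔ ∃ y, ZFSet.pair u y ∈ f ∧ z ∈ y := by
  unfold ap
  rw [ZFSet.mem_sep]
  refine ⟨fun h => h.2, fun h => ⟨?_, h⟩⟩
  obtain ⟨y, h1, h2⟩ := h
  rw [ZFSet.mem_sUnion]
  refine ⟨y, ?_, h2⟩
  rw [ZFSet.mem_sUnion]
  refine ⟨{u, y}, ?_, ZFSet.mem_pair.2 (Or.inr rfl)⟩
  rw [ZFSet.mem_sUnion]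
  refine ⟨_, h1, ?_⟩
  unfold ZFSet.pair
  exact ZFSet.mem_pair.2 (Or.inr rfl)

theorem mem_HV {ρ : Ordinal.{u}} {x : ZFSet.{u}} : x ∈ HV ρ ↔ x ∈ V_ ρ ∧ HOD x := ZFSet.mem_sep

theorem HV_sub (ρ : Ordinal.{u}) : HV ρ ⊆ V_ ρ := fun _ h => (mem_HV.1 h).1

theorem mem_TS {ξ : Ordinal.{u}} {φ : Fml} {f : ℕ → ZFSet.{u}} {w : ZFSet.{u}} :
    w ∈ TS ξ φ f ↔ w ∈ HV ξ ∧ Sat HOD φ (fun n => ap (f n) (pr n w)) := ZFSet.mem_sep

/-- the elements of elements of `(V_ (ρ + 1))^HOD` -/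
theorem mem_HV_of_VH {ρ : Ordinal.{u}} {x y : ZFSet.{u}} (hy : VH ρ y) (h : x ∈ y) : x ∈ HV ρ :=
  mem_HV.2 ⟨hy.2 h, (hod_iff.1 hy.1).2 x h⟩

theorem HV_tra {ρ : Ordinal.{u}} {x y : ZFSet.{u}} (hy : y ∈ HV ρ) (h : x ∈ y) : x ∈ HV ρ := by
  refine mem_HV.2 ⟨?_, (hod_iff.1 (mem_HV.1 hy).2).2 x h⟩
  rw [ZFSet.mem_vonNeumann]
  exact (ZFSet.rank_lt_of_mem h).trans (ZFSet.mem_vonNeumann.1 (mem_HV.1 hy).1)

theorem VH_of_HV {ρ : Ordinal.{u}} {y : ZFSet.{u}} (hy : y ∈ HV ρ) : VH ρ y :=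
  ⟨(mem_HV.1 hy).2, fun _ hx => (mem_HV.1 (HV_tra hy hx)).1⟩

theorem VH_tra {ρ : Ordinal.{u}} (x : ZFSet.{u}) (hx : VH ρ x) : ∀ y ∈ x, VH ρ y :=
  fun _ hy => VH_of_HV (mem_HV_of_VH hx hy)

theorem HOD_tra (x : ZFSet.{u}) (hx : HOD x) : ∀ y ∈ x, HOD y := (hod_iff.1 hx).2

theorem pair_mem_V {ρ : Ordinal.{u}} (hρ : IsSuccLimit ρ) {x y : ZFSet.{u}} :
    ZFSet.pair x y ∈ V_ ρ ↔ x ∈ V_ ρ ∧ y ∈ V_ ρ := by
  constructor
  · intro h
    have hV : ∀ {a b : ZFSet.{u}}, a ∈ b → b ∈ V_ ρ → a ∈ V_ ρ := by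
      intro a b hab hb
      rw [ZFSet.mem_vonNeumann] at hb ⊢
      exact (ZFSet.rank_lt_of_mem hab).trans hb
    have h1 : ({x, y} : ZFSet.{u}) ∈ V_ ρ := by
      refine hV ?_ h
      unfold ZFSet.pair
      exact ZFSet.mem_pair.2 (Or.inr rfl)
    exact ⟨hV (ZFSet.mem_pair.2 (Or.inl rfl)) h1, hV (ZFSet.mem_pair.2 (Or.inr rfl)) h1⟩
  · rintro ⟨hx, hy⟩
    have hu : ∀ {a b : ZFSet.{u}}, a ∈ V_ ρ → b ∈ V_ ρ → ({a, b} : ZFSet.{u}) ∈ V_ ρ := by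
      intro a b ha hb
      rw [ZFSet.mem_vonNeumann] at ha hb ⊢
      rw [ZFSet.rank_pair]
      exact max_lt (hρ.succ_lt ha) (hρ.succ_lt hb)
    have h1 : ({x} : ZFSet.{u}) ∈ V_ ρ := by
      have := hu hx hx
      rwa [ZFSet.pair_eq_singleton] at this
    exact hu h1 (hu hx hy)

theorem pair_mem_HV {ρ : Ordinal.{u}} (hρ : IsSuccLimit ρ) {x y : ZFSet.{u}} (hx : x ∈ HV ρ)
    (hy : y ∈ HV ρ) : ZFSet.pair x y ∈ HV ρ :=
  mem_HV.2 ⟨(pair_mem_V hρ).2 ⟨(mem_HV.1 hx).1, (mem_HV.1 hy).1⟩,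
    (mem_HV.1 hx).2.pair (mem_HV.1 hy).2⟩

theorem HOD_of_pair {x y : ZFSet.{u}} (h : HOD (ZFSet.pair x y)) : HOD x ∧ HOD y := by
  have h1 : HOD ({x, y} : ZFSet.{u}) := by
    refine HOD_tra _ h _ ?_
    unfold ZFSet.pair
    exact ZFSet.mem_pair.2 (Or.inr rfl)
  exact ⟨HOD_tra _ h1 _ (ZFSet.mem_pair.2 (Or.inl rfl)),
    HOD_tra _ h1 _ (ZFSet.mem_pair.2 (Or.inr rfl))⟩

theorem of_pair_mem_HV {ρ : Ordinal.{u}} (hρ : IsSuccLimit ρ) {x y : ZFSet.{u}}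
    (h : ZFSet.pair x y ∈ HV ρ) : x ∈ HV ρ ∧ y ∈ HV ρ := by
  obtain ⟨h1, h2⟩ := mem_HV.1 h
  obtain ⟨h3, h4⟩ := (pair_mem_V hρ).1 h1
  exact ⟨mem_HV.2 ⟨h3, (HOD_of_pair h2).1⟩, mem_HV.2 ⟨h4, (HOD_of_pair h2).2⟩⟩

theorem hod_empty : HOD (∅ : ZFSet.{u}) := by
  have := HOD.ordinal (0 : Ordinal.{u})
  rwa [toZFSet_zero] at this

theorem empty_mem_HV {ρ : Ordinal.{u}} (hρ : IsSuccLimit ρ) : (∅ : ZFSet.{u}) ∈ HV ρ := by
  refine mem_HV.2 ⟨?_, hod_empty⟩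
  rw [ZFSet.mem_vonNeumann, ZFSet.rank_empty]
  exact hρ.bot_lt

theorem fs_mem_HV {ρ : Ordinal.{u}} (hρ : IsSuccLimit ρ) {w : ZFSet.{u}} (hw : w ∈ HV ρ) :
    fs w ∈ HV ρ := by
  by_cases h : ∃ u v, w = ZFSet.pair u v
  · obtain ⟨u, v, rfl⟩ := h
    rw [fs_pair]
    exact (of_pair_mem_HV hρ hw).1
  · rw [fs_not h]
    exact empty_mem_HV hρ

theorem sn_mem_HV {ρ : Ordinal.{u}} (hρ : IsSuccLimit ρ) {w : ZFSet.{u}} (hw : w ∈ HV ρ) :
    sn w ∈ HV ρ := by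
  by_cases h : ∃ u v, w = ZFSet.pair u v
  · obtain ⟨u, v, rfl⟩ := h
    rw [sn_pair]
    exact (of_pair_mem_HV hρ hw).2
  · rw [sn_not h]
    exact empty_mem_HV hρ

theorem pr_mem_HV {ρ : Ordinal.{u}} (hρ : IsSuccLimit ρ) (n : ℕ) {w : ZFSet.{u}}
    (hw : w ∈ HV ρ) : pr n w ∈ HV ρ := by
  induction n generalizing w with
  | zero => exact fs_mem_HV hρ hw
  | succ n ih => exact ih (sn_mem_HV hρ hw)

theorem tup_mem_HV {ρ : Ordinal.{u}} (hρ : IsSuccLimit ρ) {l : List ZFSet.{u}}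
    (hl : ∀ x ∈ l, x ∈ HV ρ) : tup l ∈ HV ρ := by
  induction l with
  | nil => exact empty_mem_HV hρ
  | cons a l ih =>
    exact pair_mem_HV hρ (hl a (by simp)) (ih fun x hx => hl x (by simp [hx]))

theorem sat_bd (M : ZFSet.{u} → Prop) (φ : Fml) : ∀ v v' : ℕ → ZFSet.{u},
    (∀ n < bd φ, v n = v' n) → (Sat M φ v ↔ Sat M φ v') := by
  induction φ with
  | mem i l =>
    intro v v' h
    show v i ∈ v l ↔ v' i ∈ v' l
    rw [h i (by simp [bd]), h l (by simp [bd])]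
  | eq i l =>
    intro v v' h
    show v i = v l ↔ v' i = v' l
    rw [h i (by simp [bd]), h l (by simp [bd])]
  | neg φ ih => exact fun v v' h => not_congr (ih v v' h)
  | and φ ψ ih1 ih2 =>
    intro v v' h
    exact and_congr (ih1 v v' fun n hn => h n (lt_of_lt_of_le hn (le_max_left _ _)))
      (ih2 v v' fun n hn => h n (lt_of_lt_of_le hn (le_max_right _ _)))
  | ex φ ih =>
    intro v v' h
    refine exists_congr fun x => and_congr_right fun _ => ih _ _ fun n hn => ?_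
    rcases n with _ | n
    · rfl
    · exact h n (Nat.lt_of_succ_lt hn)

end Pool.Agent.H54.WM
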