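import Pool.Agent.H54.WM.D0
import Pool.Agent.H3.HD.DM

/-!
# Functions in HOD
-/

open Ordinal Cardinal Order Set
open scoped ZFSet

universe u

namespace Pool.Agent.H54.WM

open _root_.HD

/-- the restriction of the function `g` to the `u ∈ (V_ ξ)^HOD` with `g u ∈ a` -/
noncomputable def gr (ξ : Ordinal.{u}) (g a : ZFSet.{u}) : ZFSet.{u} :=
  ZFSet.sep (fun p => ∃ u ∈ HV ξ, p = ZFSet.pair u (ap g u) ∧ ap g u ∈ a) (ZFSet.prod (HV ξ) a)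

/-- the constant function with value `x` -/
noncomputable def cst (ξ : Ordinal.{u}) (x : ZFSet.{u}) : ZFSet.{u} := ZFSet.prod (HV ξ) {x}

/-- the identity function -/
noncomputable def idf (ξ : Ordinal.{u}) : ZFSet.{u} :=
  ZFSet.sep (fun p => ∃ u ∈ HV ξ, p = ZFSet.pair u u) (ZFSet.prod (HV ξ) (HV ξ))

theorem mem_gr {ξ : Ordinal.{u}} {g a p : ZFSet.{u}} :
    p ∈ gr ξ g a ↔ ∃ u ∈ HV ξ, p = ZFSet.pair u (ap g u) ∧ ap g u ∈ a := by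
  unfold gr
  rw [ZFSet.mem_sep]
  refine ⟨fun h => h.2, fun h => ⟨?_, h⟩⟩
  obtain ⟨u, hu, rfl, ha⟩ := h
  rw [ZFSet.mem_prod]
  exact ⟨u, hu, _, ha, rfl⟩

theorem mem_cst {ξ : Ordinal.{u}} {x p : ZFSet.{u}} :
    p ∈ cst ξ x ↔ ∃ u ∈ HV ξ, p = ZFSet.pair u x := by
  unfold cst
  rw [ZFSet.mem_prod]
  constructor
  · rintro ⟨u, hu, y, hy, rfl⟩
    rw [ZFSet.mem_singleton] at hy
    subst hy
    exact ⟨u, hu, rfl⟩
  · rintro ⟨u, hu, rfl⟩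
    exact ⟨u, hu, x, ZFSet.mem_singleton.2 rfl, rfl⟩

theorem mem_idf {ξ : Ordinal.{u}} {p : ZFSet.{u}} :
    p ∈ idf ξ ↔ ∃ u ∈ HV ξ, p = ZFSet.pair u u := by
  unfold idf
  rw [ZFSet.mem_sep]
  refine ⟨fun h => h.2, fun h => ⟨?_, h⟩⟩
  obtain ⟨u, hu, rfl⟩ := h
  rw [ZFSet.mem_prod]
  exact ⟨u, hu, u, hu, rfl⟩

theorem ap_gr {ξ : Ordinal.{u}} {g a u : ZFSet.{u}} (hu : u ∈ HV ξ) (h : ap g u ∈ a) :
    ap (gr ξ g a) u = ap g u := by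
  ext z
  rw [mem_ap]
  constructor
  · rintro ⟨y, hy, hz⟩
    obtain ⟨u', -, h1, -⟩ := mem_gr.1 hy
    obtain ⟨rfl, rfl⟩ := ZFSet.pair_inj.1 h1
    exact hz
  · intro hz
    exact ⟨_, mem_gr.2 ⟨u, hu, rfl, h⟩, hz⟩

theorem ap_cst {ξ : Ordinal.{u}} {x u : ZFSet.{u}} (hu : u ∈ HV ξ) : ap (cst ξ x) u = x := by
  ext z
  rw [mem_ap]
  constructor
  · rintro ⟨y, hy, hz⟩
    obtain ⟨u', -, h1⟩ := mem_cst.1 hy
    obtain ⟨rfl, rfl⟩ := ZFSet.pair_inj.1 h1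
    exact hz
  · intro hz
    exact ⟨_, mem_cst.2 ⟨u, hu, rfl⟩, hz⟩

theorem ap_idf {ξ : Ordinal.{u}} {u : ZFSet.{u}} (hu : u ∈ HV ξ) : ap (idf ξ) u = u := by
  ext z
  rw [mem_ap]
  constructor
  · rintro ⟨y, hy, hz⟩
    obtain ⟨u', -, h1⟩ := mem_idf.1 hy
    obtain ⟨rfl, rfl⟩ := ZFSet.pair_inj.1 h1
    exact hz
  · intro hz
    exact ⟨_, mem_idf.2 ⟨u, hu, rfl⟩, hz⟩

/-! ## Definability -/

theorem D0.dz {P : (ℕ → ZFSet.{u}) → Prop} (hP : D0 P) : DZ P := by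
  obtain ⟨φ, hφ⟩ := hP
  exact DV.dz ⟨φ, fun v => hφ (fun _ => True) (fun _ _ _ _ => trivial) v fun _ => trivial⟩

theorem od_V (a : Ordinal.{u}) : OD (V_ a) := by
  refine OD.of_dz ?_
  refine (DZ.sub (a := a.toZFSet) (R := fun b v => b.IsOrdinal ∧ v 0 = V_ b.rank)
    (DZ.eqOrd a 0) ?_).congr fun v => ?_
  · exact (loc_V 0 1).dz
  · simp [ZFSet.isOrdinal_toZFSet, rank_toZFSet]

theorem hod_HV (ρ : Ordinal.{u}) : HOD (HV ρ) := by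
  refine hod_iff.2 ⟨?_, fun y hy => (mem_HV.1 hy).2⟩
  refine OD.of_mem (P := fun v => v 0 ∈ V_ ρ ∧ HOD (v 0)) ?_ fun v => mem_HV.symm
  exact (DZ.od (R := fun b v => v 0 ∈ b) (od_V ρ) (DZ.mem 1 0)).and (Pool.Agent.H3.HD.DM.dz_hod 0)

theorem hod_ap {f u : ZFSet.{u}} (hf : HOD f) (hu : HOD u) : HOD (ap f u) := by
  refine hod_iff.2 ⟨?_, fun z hz => ?_⟩
  · refine OD.of_dz ?_
    refine DZ.od (R := fun a v => v 0 = ap a u) hf.od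
      (DZ.od (R := fun b v => v 1 = ap (v 0) b) hu.od ?_)
    exact (D0.ap 2 1 0).dz
  · obtain ⟨y, h1, h2⟩ := mem_ap.1 hz
    exact HOD_tra _ (HOD_of_pair (HOD_tra _ hf _ h1)).2 _ h2

theorem hod_gr {ξ : Ordinal.{u}} {g a : ZFSet.{u}} (hg : HOD g) (ha : HOD a) :
    HOD (gr ξ g a) := by
  refine hod_iff.2 ⟨?_, fun z hz => ?_⟩
  · refine OD.of_mem (P := fun v => ∃ u, u ∈ HV ξ ∧ v 0 = ZFSet.pair u (ap g u) ∧ ap g u ∈ a) ?_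
      fun v => by rw [mem_gr]
    refine DZ.ex (R := fun u v => u ∈ HV ξ ∧ v 0 = ZFSet.pair u (ap g u) ∧ ap g u ∈ a) ?_
    refine (DZ.od (R := fun b v => v 0 ∈ b) (hod_HV ξ).od (DZ.mem 1 0)).and ?_
    refine (DZ.ex (R := fun y v => y = ap g (v 0) ∧ v 1 = ZFSet.pair (v 0) y ∧ y ∈ a)
      ((DZ.od (R := fun b v => v 0 = ap b (v 1)) hg.od (D0.ap 1 0 2).dz).and
        ((D0.pair 2 1 0).dz.and
        (DZ.od (R := fun b v => v 0 ∈ b) ha.od (DZ.mem 1 0))))).congr fun v => ?_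
    simp
  · obtain ⟨u, hu, rfl, h⟩ := mem_gr.1 hz
    exact (mem_HV.1 hu).2.pair (HOD_tra _ ha _ h)

theorem hod_cst {ξ : Ordinal.{u}} {x : ZFSet.{u}} (hx : HOD x) : HOD (cst ξ x) := by
  refine hod_iff.2 ⟨?_, fun z hz => ?_⟩
  · refine OD.of_mem (P := fun v => ∃ u, u ∈ HV ξ ∧ v 0 = ZFSet.pair u x) ?_
      fun v => by rw [mem_cst]
    refine DZ.ex (R := fun u v => u ∈ HV ξ ∧ v 0 = ZFSet.pair u x) ?_
    exact (DZ.od (R := fun b v => v 0 ∈ b) (hod_HV ξ).od (DZ.mem 1 0)).and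
      (DZ.od (R := fun b v => v 1 = ZFSet.pair (v 0) b) hx.od (D0.pair 2 1 0).dz)
  · obtain ⟨u, hu, rfl⟩ := mem_cst.1 hz
    exact (mem_HV.1 hu).2.pair hx

theorem hod_idf (ξ : Ordinal.{u}) : HOD (idf ξ) := by
  refine hod_iff.2 ⟨?_, fun z hz => ?_⟩
  · refine OD.of_mem (P := fun v => ∃ u, u ∈ HV ξ ∧ v 0 = ZFSet.pair u u) ?_
      fun v => by rw [mem_idf]
    refine DZ.ex (R := fun u v => u ∈ HV ξ ∧ v 0 = ZFSet.pair u u) ?_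
    exact (DZ.od (R := fun b v => v 0 ∈ b) (hod_HV ξ).od (DZ.mem 1 0)).and (D0.pair 1 0 0).dz
  · obtain ⟨u, hu, rfl⟩ := mem_idf.1 hz
    exact (mem_HV.1 hu).2.pair (mem_HV.1 hu).2

/-- the subset `gr ξ g (HV ξ)` of `V_ ξ` -/
theorem VH_gr {ξ : Ordinal.{u}} (hξ : IsSuccLimit ξ) {g : ZFSet.{u}} (hg : HOD g) :
    VH ξ (gr ξ g (HV ξ)) := by
  refine ⟨hod_gr hg (hod_HV ξ), fun z hz => ?_⟩
  obtain ⟨u, hu, rfl, h⟩ := mem_gr.1 hz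
  exact (mem_HV.1 (pair_mem_HV hξ hu h)).1

/-! ## The terms for the elements of `(V_ κ)^HOD` and of HOD -/

/-- the term for `c` -/
noncomputable def idt (ξ : Ordinal.{u}) {κ : Ordinal.{u}} (c : ZFSet.{u}) (hc : c ∈ HV κ) :
    Tm κ := ⟨c, idf ξ, hc, hod_idf ξ⟩

/-- the term for the image of `x` -/
noncomputable def ct (ξ : Ordinal.{u}) {κ : Ordinal.{u}} (hκ : IsSuccLimit κ) (x : ZFSet.{u})
    (hx : HOD x) : Tm κ := ⟨∅, cst ξ x, empty_mem_HV hκ, hod_cst hx⟩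

end Pool.Agent.H54.WM
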